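import Pool.Agent.J6H91.TZ.Stm
import Pool.Agent.J6H91.Cyc.Main2
import Pool.Agent.J6H91.Cyc.Diverge

/-!
# The classification for torus zero sets which are unions of cosets
-/

set_option autoImplicit false

namespace Pool.Agent.J6H91.TZ

open MvPolynomial Filter Topology Pool.Agent.J6H91.Cyc

variable {σ : Type} [Fintype σ] [DecidableEq σ]

/-- the exponents in `ℕ^σ` which lie in `L` -/
def mon (L : AddSubgroup (σ → ℤ)) : AddSubmonoid (σ →₀ ℕ) where
  carrier := {k | toZ k ∈ L}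
  zero_mem' := by
    change Pool.Agent.J6H91.Cyc.toZ 0 ∈ L
    rw [toZ_zero]
    exact zero_mem _
  add_mem' := by
    intro a b ha hb
    change toZ (a + b) ∈ L
    rw [toZ_add]
    exact add_mem ha hb

theorem mem_mon {L : AddSubgroup (σ → ℤ)} {k : σ →₀ ℕ} : k ∈ mon L ↔ toZ k ∈ L := Iff.rfl

theorem mon_subtractive (L : AddSubgroup (σ → ℤ)) :
    ∀ x ∈ mon L, ∀ y, x + y ∈ mon L → y ∈ mon L := by
  intro x hx y hxy
  rw [mem_mon] at *
  rw [toZ_add] at hxy
  exact (AddSubgroup.add_mem_cancel_left _ hx).mp hxy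

/-- the rank criterion for a coset -/
def Rk (t : ℝ) (L : AddSubgroup (σ → ℤ)) : Prop :=
  ∃ J : Finset σ, J.Nonempty ∧ t * J.card ≤ rankIn {k | toZ k ∈ L} J

theorem zeroFree_of_approxOne {t : ℝ} {P : MvPolynomial σ ℂ} (h : ApproxOne t P) : ZeroFree P :=
  fun _ hz h0 => not_approxOne_of_zero hz h0 h

theorem rk_of_approxOne (hCOS : S_COS) {t : ℝ} {P : MvPolynomial σ ℂ} (h : ApproxOne t P)
    (L : AddSubgroup (σ → ℤ)) (a : σ → ℂ) (ha : ∀ j, ‖a j‖ = 1)
    (hz : ∀ z ∈ coset L a, eval z P = 0) : Rk t L := by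
  classical
  set φ : (σ →₀ ℕ) → ℂ := fun k => if toZ k ∈ L then ∏ j, a j ^ k j else 0 with hφ
  have hφ1 : functional φ 1 = 1 := by
    have h1 : (1 : MvPolynomial σ ℂ) = monomial 0 1 := rfl
    rw [h1, functional_monomial]
    simp [hφ, toZ_zero, zero_mem]
  have hns : ¬ Summable fun k => (weight t k)⁻¹ * ‖φ k‖ ^ 2 := by
    intro hs
    refine not_approxOne_of_functional hs (fun q => ?_) (by rw [hφ1]; exact one_ne_zero) h
    rw [functional_sub, hCOS σ L a ha (q * P) (fun z hzc => by rw [map_mul, hz z hzc, mul_zero]),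
      sub_zero]
  have hnorm : ∀ k, (weight t k)⁻¹ * ‖φ k‖ ^ 2 =
      Set.indicator (mon L : Set (σ →₀ ℕ)) (fun k => (weight t k)⁻¹) k := by
    intro k
    by_cases hk : k ∈ (mon L : Set (σ →₀ ℕ))
    · rw [Set.indicator_of_mem hk]
      have hk' : toZ k ∈ L := hk
      simp only [hφ, if_pos hk', norm_prod, norm_pow, ha, one_pow, Finset.prod_const_one, mul_one]
    · rw [Set.indicator_of_notMem hk]
      have hk' : toZ k ∉ L := hk
      simp only [hφ, if_neg hk', norm_zero]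
      ring
  have hns2 : ¬ Summable fun k : mon L => (weight t k.1)⁻¹ := by
    intro hs
    apply hns
    have h1 := (summable_subtype_iff_indicator (f := fun k : σ →₀ ℕ => (weight t k)⁻¹)
      (s := (mon L : Set (σ →₀ ℕ)))).1 hs
    exact h1.congr fun k => (hnorm k).symm
  have hx : ∃ x ∈ mon L, x ≠ 0 := by
    by_contra hcon
    push Not at hcon
    apply hns2
    have : Finite (mon L) := by
      refine Finite.of_injective (β := Unit) (fun _ => ()) fun x y _ => Subtype.ext ?_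
      rw [hcon x.1 x.2, hcon y.1 y.2]
    exact Summable.of_finite
  obtain ⟨x, hx1, hx0⟩ := hx
  exact (summable_iff_rank (mon_subtractive L) hx1 hx0 t).1 hns2

theorem exists_of_rk {t : ℝ} (ht : 0 < t) {L : AddSubgroup (σ → ℤ)} (h : Rk t L) :
    ∃ k : σ →₀ ℕ, k ≠ 0 ∧ toZ k ∈ L := by
  by_contra hcon
  push Not at hcon
  obtain ⟨J, hJ, hle⟩ := h
  have h1 : rankIn {k | toZ k ∈ L} J = 0 := by
    unfold rankIn
    have h2 : (toQ : (σ →₀ ℕ) → σ → ℚ) '' {k | k ∈ {k | toZ k ∈ L} ∧ k.support ⊆ J} ⊆ {0} := by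
      rintro _ ⟨k, ⟨hk, -⟩, rfl⟩
      have : k = 0 := by
        by_contra h0
        exact hcon k h0 hk
      rw [this, Set.mem_singleton_iff]
      exact map_zero _
    have h3 : Submodule.span ℚ ((toQ : (σ →₀ ℕ) → σ → ℚ) ''
        {k | k ∈ {k | toZ k ∈ L} ∧ k.support ⊆ J}) = ⊥ := by
      rw [Submodule.span_eq_bot]
      exact fun x hx => h2 hx
    rw [h3]
    exact finrank_bot ℚ _
  rw [h1, Nat.cast_zero] at hle
  have h2 : 0 < t * (J.card : ℝ) := mul_pos ht (by exact_mod_cast hJ.card_pos)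
  linarith

theorem approxOne_of_cosets (hCMP : S_CMP) (hDOM : S_DOM) {t : ℝ} {P : MvPolynomial σ ℂ}
    (hP : ZeroFree P) {ι : Type} [Finite ι] (L : ι → AddSubgroup (σ → ℤ)) (a : ι → σ → ℂ)
    (ha : ∀ i j, ‖a i j‖ = 1) (hL : ∀ i, Rk t (L i))
    (hz : ∀ z : σ → ℂ, (∀ j, ‖z j‖ = 1) → eval z P = 0 → ∃ i, z ∈ coset (L i) (a i)) :
    ApproxOne t P := by
  classical
  rcases le_or_gt t 0 with ht | ht
  · refine approxOne_of_zeroFree ?_ hP
    have : (0:ℝ) ≤ Fintype.card σ := Nat.cast_nonneg _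
    nlinarith
  have := Fintype.ofFinite ι
  choose Q hQ1 hQ2 hQ3 using fun i => hDOM σ (L i) (a i) (ha i) (exists_of_rk ht (hL i))
  have hQc : ∀ i, ApproxOne t (Q i) := by
    intro i
    refine (dominated_cyclic_iff (hQ1 i) t).mpr (Or.inr ?_)
    obtain ⟨J, hJ, hle⟩ := hL i
    refine ⟨J, hJ, ?_⟩
    have : {k | InExponentGroup (Q i) k} = {k | toZ k ∈ L i} := by
      ext k
      exact hQ3 i k
    rw [this]
    exact hle
  have hprod : ApproxOne t (∏ i, Q i) := by
    have h : ∀ s : Finset ι, ApproxOne t (∏ i ∈ s, Q i) := by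
      intro s
      induction s using Finset.induction_on with
      | empty =>
        rw [Finset.prod_empty]
        have := approxOne_C (σ := σ) (t := t) (a := 1) one_ne_zero
        rwa [C_1] at this
      | insert i s hi ih =>
        rw [Finset.prod_insert hi]
        exact (hQc i).mul ih
    exact h Finset.univ
  refine hCMP σ t P (∏ i, Q i) hP (fun z hz1 h0 => ?_) hprod
  obtain ⟨i, hi⟩ := hz z hz1 h0
  rw [map_prod]
  exact Finset.prod_eq_zero (Finset.mem_univ i) (hQ2 i z hi)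

end Pool.Agent.J6H91.TZ
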