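import Pool.Agent.J6H91.Cyc.Main3
import Pool.Agent.J6H91.Cyc.Closed
import Pool.Agent.Helper334_SA.QE

/-!
# Project TZ (helper91): shift-cyclicity and the zero set on the torus. Modules.

Everything is in `ℂ[z_j : j ∈ σ]`, `σ` finite. `ShiftCyclic t P ↔ ApproxOne t P`
(`Cyc.shiftCyclic_iff`). `invR P r` is the inverse power series of `P(r z)` (`Cyc/Main1.lean`).
Put your file in your own folder under `Pool/Agent/`, with a theorem `... : Pool.Agent.J6H91.TZ.S_XX`.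
-/

set_option autoImplicit false

namespace Pool.Agent.J6H91.TZ

open MvPolynomial Filter Topology Pool.Agent.J6H91.Cyc

/-- **TZ-LOJ**, the inequality of Lojasiewicz for polynomials on a compact semialgebraic set.

Proof. Put `F = f²`, `G = g²`. Let `W ⊆ ℝ²` be the set of the `(u, v)` with `0 < u` and
`∃ x ∈ K, G x = u ∧ F x = v ∧ ∀ y ∈ K, G y = u → v ≤ F y`. It is semialgebraic:
`Helper334_SA.SAP.exists_real` (elimination of one quantifier; iterate it, e.g. by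
`Finite.induction_empty_option`, over `x ∈ ι → ℝ`), `SAP.not`, `SAP.and`, `SAP.imp`, `SA.preimage`.
For every `u` in `U = G(K) \ {0}` there is exactly one `v = m(u)` with `(u, v) ∈ W`, and `m(u) > 0`.
Let `Q` be the finite set of polynomials in two variables of `SA W`. For `u ∈ U` there is `q ∈ Q` such
that `q(u, ·)` is not the zero polynomial and `q(u, m(u)) = 0`: otherwise the signs of all `q(u, v)`
are the same for `v` near `m(u)`, so all these `(u, v)` are in `W`, a contradiction. Let `q ∈ Q`,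
`q ≠ 0`, `q = v^i (c(u) + v (...))` with a polynomial `c ≠ 0` (`c` is the first nonzero coefficient in
`v`). For `u ∈ U`, `u` small, `c(u) ≠ 0` and `|c(u)| ≥ κ u^n`, and `q(u, v) = 0`, `0 < v ≤ V` gives
`κ u^n ≤ B v`. So `F x ≥ c₁ (G x)^n` for the `x ∈ K` with `G x` small and positive (and it holds for
`G x = 0`, `n ≥ 1`); for `G x ≥ δ` use compactness (`F > 0` there). Take the square root. -/
def S_LOJ : Prop :=
  ∀ (ι : Type) [Finite ι] (K : Set (ι → ℝ)) (f g : MvPolynomial ι ℝ), IsCompact K →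
    Pool.Agent.Helper334_SA.SA K → (∀ x ∈ K, eval x f = 0 → eval x g = 0) →
    ∃ (N : ℕ) (C : ℝ), ∀ x ∈ K, |eval x g| ^ N ≤ C * |eval x f|

/-- **TZ-LT**, from `S_LOJ` (take it as a hypothesis): `ι = Option (σ ⊕ σ)`, coordinates `r`, `Re z_j`,
`Im z_j`; `K`: `0 ≤ r ≤ 1`, `(Re z_j)² + (Im z_j)² = 1`; `f = |P(r z)|²`, `g = |Q(z)|²` (real polynomials:
`|P|² = (Re P)² + (Im P)²`; the real part of `eval (x + i y) P` is a real polynomial in `x, y`, by
induction on `P`). For `r < 1` the polynomial `P(r z)` has no zero on the torus, as `P` is zero-free.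
The exponents: `|g|^N ≤ C |f|` reads `|Q|^(2N) ≤ C |P|²`; if `|Q| ≤ B`, `B ≥ 1`, this gives the claim with
the exponent `N` (square root). -/
def S_LT : Prop := S_LOJ →
  ∀ (σ : Type) [Fintype σ] [DecidableEq σ] (P Q : MvPolynomial σ ℂ), ZeroFree P →
    (∀ z : σ → ℂ, (∀ j, ‖z j‖ = 1) → eval z P = 0 → eval z Q = 0) →
    ∃ (N : ℕ) (C : ℝ), ∀ r : ℝ, 0 ≤ r → r ≤ 1 → ∀ z : σ → ℂ, (∀ j, ‖z j‖ = 1) →
      ‖eval z Q‖ ^ N ≤ C * ‖eval (fun j => (r : ℂ) * z j) P‖

/-- **TZ-PAR**, Bessel's inequality for an absolutely convergent series. Proof: for a finite set `S` of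
exponents `Cyc.parseval` (with `M` larger than all `k j`, `k ∈ S`; `Cyc.norm_ru`) and
`|∑_{k ∈ S} G_k z^k| ≤ C + ∑_{k ∉ S} ‖G_k‖` give `∑_{k ∈ S} ‖G_k‖² ≤ (C + ε)²` for all `S` containing a
finite set `S₀(ε)`, hence for all `S`; let `ε → 0`. (`C ≥ 0` follows from `z = 1`.) -/
def S_PAR : Prop :=
  ∀ (σ : Type) [Fintype σ] [DecidableEq σ] (G : MvPowerSeries σ ℂ) (C : ℝ),
    Summable (fun k => ‖MvPowerSeries.coeff k G‖) →
    (∀ z : σ → ℂ, (∀ j, ‖z j‖ = 1) → ‖∑' k, MvPowerSeries.coeff k G * ∏ j, z j ^ k j‖ ≤ C) →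
    Summable (fun k => ‖MvPowerSeries.coeff k G‖ ^ 2) ∧ ∑' k, ‖MvPowerSeries.coeff k G‖ ^ 2 ≤ C ^ 2

/-- **TZ-EV**, the values of `B / P(r z)^m` on the torus. Proof: (1) `‖coeff k (invR P r)‖` decays
geometrically: for `r < r' < 1` the coefficients of `invR P r'` are bounded (as in
`Cyc.approxOne_of_zeroFree`, `hinv`: `slices`, `bd_prod_geo`, `sum_le_of_slices` for `{k}`), and
`coeff k (invR P r) = (r / r')^|k| coeff k (invR P r')` (`r' > 0`; see `hcoef` in `Cyc/Closed.lean`);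
`Cyc.summable_prod_of_nonneg` for the summability. (2) Absolutely summable series are closed under
products and the evaluation at a point `z` with `‖z j‖ = 1` is multiplicative
(`Summable.tsum_mul_tsum_eq_tsum_sum_antidiagonal`, `MvPowerSeries.coeff_mul`; induction on `m`).
(3) `P(r z) * invR P r = 1` (`MvPowerSeries.rescale`, `MvPowerSeries.mul_inv_cancel`,
`constantCoeff_ne`), and for a polynomial the sum is `MvPolynomial.eval`. -/
def S_EV : Prop :=
  ∀ (σ : Type) [Fintype σ] [DecidableEq σ] (P : MvPolynomial σ ℂ), ZeroFree P →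
    ∀ r : ℝ, 0 ≤ r → r < 1 → ∀ (B : MvPolynomial σ ℂ) (m : ℕ),
      Summable (fun k => ‖MvPowerSeries.coeff k ((B : MvPowerSeries σ ℂ) * invR P r ^ m)‖) ∧
      ∀ z : σ → ℂ, (∀ j, ‖z j‖ = 1) →
        ∑' k, MvPowerSeries.coeff k ((B : MvPowerSeries σ ℂ) * invR P r ^ m) * ∏ j, z j ^ k j =
          eval z B / eval (fun j => (r : ℂ) * z j) P ^ m

/-- the substitution `X none = r` -/
noncomputable def psi {σ : Type} (r : ℝ) : MvPolynomial (Option σ) ℂ →ₐ[ℂ] MvPolynomial σ ℂ :=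
  aeval fun o => Option.elim o (C (r : ℂ)) X

/-- **TZ-OP**, derivatives of `Q^a P / P(r z)`. With `N = s |σ|`: the series with the coefficients
`∏_j (k_j + 1)^s` times those of `Q^(a + N) P / P(r z)` is `B_r / P(r z)^(N + 1)`, where the polynomial
`B_r = psi r B` depends polynomially on `r` and `Q^a ∣ B`.

Proof. On power series put `θ_j G = (k_j G_k)_k`, a derivation (`θ_j (F G) = θ_j F G + F θ_j G`, from
`MvPowerSeries.coeff_mul`); for `A ∈ ℂ[X none, X_j]` let `θ_j A = X (some j) * pderiv (some j) A`; then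
`θ_j (psi r A) = psi r (θ_j A)` (induction on `A`). Let `𝐏 = P(X none * X_j)`, so `psi r 𝐏 = P(r z)`
and `I = invR P r` satisfies `(psi r 𝐏) I = 1`, `θ_j I = - (psi r (θ_j 𝐏)) I²`. So
`(θ_j + 1) ((psi r A) I^m) = psi r (𝐏 θ_j A - m A θ_j 𝐏 + A 𝐏) I^(m + 1)`, and if `Q^(b + 1) ∣ A`, then
`Q^b ∣ 𝐏 θ_j A - m A θ_j 𝐏 + A 𝐏`. Apply each of the operators `θ_j + 1` (coefficient factor `k_j + 1`)
`s` times, starting with `A = Q^(a + N) P`, `m = 1`. -/
def S_OP : Prop :=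
  ∀ (σ : Type) [Fintype σ] [DecidableEq σ] (P Q : MvPolynomial σ ℂ), ZeroFree P → ∀ s a : ℕ,
    ∃ B : MvPolynomial (Option σ) ℂ, rename some Q ^ a ∣ B ∧ ∀ (r : ℝ) (k : σ →₀ ℕ),
      (∏ j, ((k j : ℂ) + 1) ^ s) * MvPowerSeries.coeff k
        (((Q ^ (a + s * Fintype.card σ) * P : MvPolynomial σ ℂ) : MvPowerSeries σ ℂ) * invR P r) =
      MvPowerSeries.coeff k (((psi r B : MvPolynomial σ ℂ) : MvPowerSeries σ ℂ) *
        invR P r ^ (s * Fintype.card σ + 1))

/-- **TZ-WK**, the weak convergence criterion with a target polynomial `f`: copy the proof of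
`Cyc.approxOne_of_weak` (there `f = 1`). -/
def S_WK : Prop :=
  ∀ (σ : Type) [Fintype σ] [DecidableEq σ] (t : ℝ) (P f : MvPolynomial σ ℂ)
    (c : ℕ → (σ →₀ ℕ) → ℂ) (_ : ∀ n, MemD t (c n)) (C : ℝ) (_ : ∀ n, normSq t (c n) ≤ C)
    (_ : ∀ k, Tendsto (fun n => c n k) atTop (𝓝 (f.coeff k)))
    (_ : ∀ n, ∀ ε : ℝ, 0 < ε → ∃ q : MvPolynomial σ ℂ,
      normSq t (fun k => c n k - (q * P).coeff k) < ε),
    ∀ ε : ℝ, 0 < ε → ∃ q : MvPolynomial σ ℂ, normSq t (fun k => f.coeff k - (q * P).coeff k) < ε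

/-- **TZ-CMP** (helper91 does it), the comparison theorem. -/
def S_CMP : Prop :=
  ∀ (σ : Type) [Fintype σ] [DecidableEq σ] (t : ℝ) (P Q : MvPolynomial σ ℂ), ZeroFree P →
    (∀ z : σ → ℂ, (∀ j, ‖z j‖ = 1) → eval z P = 0 → eval z Q = 0) → ApproxOne t Q → ApproxOne t P

/-- the coset `a H` of the closed subgroup `H = {z : z^l = 1 for l ∈ L}` of the torus -/
def coset {σ : Type} [Fintype σ] (L : AddSubgroup (σ → ℤ)) (a : σ → ℂ) : Set (σ → ℂ) :=
  {z | (∀ j, ‖z j‖ = 1) ∧ ∀ l ∈ L, ∏ j, (z j / a j) ^ l j = 1}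

/-- **TZ-COS**, the Haar measure of a coset as a functional. Proof: let `H` be the subgroup
`{z : z^l = 1 for l ∈ L}` of `σ → Circle` (or of `σ → ℂˣ` with `‖z j‖ = 1`). For `z ∈ H`:
`0 = eval (a z) f = ∑ f_k a^k χ_k(z)`, where `χ_k : H →* ℂ`, `χ_k(z) = ∏ z_j^(k_j)`. Group the sum by the
value of `χ_k`; distinct characters are linearly independent (`linearIndependent_monoidHom`), so
`∑_{χ_k = 1} f_k a^k = 0`. Finally `χ_k = 1` iff `toZ k ∈ L`: if `toZ k ∉ L`, then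
`CharacterModule.exists_character_apply_ne_zero_of_ne_zero` for the class of `toZ k` in `(σ → ℤ) ⧸ L` gives
a homomorphism `(σ → ℤ) →+ AddCircle (1 : ℚ)` which kills `L` but not `toZ k`; compose it with
`q ↦ exp (2 π i q)` and take the images of the unit vectors: a point `z ∈ H` with `χ_k(z) ≠ 1`. -/
def S_COS : Prop :=
  ∀ (σ : Type) [Fintype σ] [DecidableEq σ] (L : AddSubgroup (σ → ℤ))
    [DecidablePred fun k : σ →₀ ℕ => toZ k ∈ L] (a : σ → ℂ), (∀ j, ‖a j‖ = 1) →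
    ∀ f : MvPolynomial σ ℂ, (∀ z ∈ coset L a, eval z f = 0) →
      functional (fun k => if toZ k ∈ L then ∏ j, a j ^ k j else 0) f = 0

/-- **TZ-DOM**, a dominated polynomial for a coset. Proof: `M = {k : toZ k ∈ L}`. The subgroup of
`σ → ℤ` generated by `toZ '' M` is finitely generated, so there is a finite set `S ⊆ M \ {0}` with
`closure (toZ '' S) = closure (toZ '' M)` (`Submodule.fg_span_iff_fg_span_finset_subset` or similar;
add a nonzero element of `M` to get `S ≠ ∅`). Take `Q = |S| - ∑_{k ∈ S} ∏ a_j^(-k_j) z^k`. The support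
of `Q` is `S ∪ {0}`, so `InExponentGroup Q k ↔ toZ k ∈ closure (toZ '' M) ↔ toZ k ∈ L` for `k ∈ σ →₀ ℕ`. -/
def S_DOM : Prop :=
  ∀ (σ : Type) [Fintype σ] [DecidableEq σ] (L : AddSubgroup (σ → ℤ)) (a : σ → ℂ),
    (∀ j, ‖a j‖ = 1) → (∃ k : σ →₀ ℕ, k ≠ 0 ∧ toZ k ∈ L) →
    ∃ Q : MvPolynomial σ ℂ, Dominated Q ∧ (∀ z ∈ coset L a, eval z Q = 0) ∧
      ∀ k : σ →₀ ℕ, InExponentGroup Q k ↔ toZ k ∈ L

end Pool.Agent.J6H91.TZ
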