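import Pool.Agent.J6H91.TZ.Decay
import Pool.Agent.J6H91.TZ.Stm

/-!
# Derivatives of `Q^a P / P(r z)`
-/

set_option autoImplicit false

namespace Pool.Agent.J6H91.TZ

open MvPolynomial Filter Topology Pool.Agent.J6H91.Cyc

variable {σ : Type} [Fintype σ] [DecidableEq σ]

/-- `z_j ∂_j` on power series -/
noncomputable def th (j : σ) (G : MvPowerSeries σ ℂ) : MvPowerSeries σ ℂ :=
  fun k => (k j : ℂ) * MvPowerSeries.coeff k G

theorem coeff_th (j : σ) (G : MvPowerSeries σ ℂ) (k : σ →₀ ℕ) :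
    MvPowerSeries.coeff k (th j G) = (k j : ℂ) * MvPowerSeries.coeff k G := rfl

theorem th_add (j : σ) (F G : MvPowerSeries σ ℂ) : th j (F + G) = th j F + th j G := by
  ext k
  simp only [coeff_th, map_add]
  ring

theorem th_mul (j : σ) (F G : MvPowerSeries σ ℂ) : th j (F * G) = th j F * G + F * th j G := by
  ext k
  rw [coeff_th, map_add, MvPowerSeries.coeff_mul, MvPowerSeries.coeff_mul, MvPowerSeries.coeff_mul,
    Finset.mul_sum, ← Finset.sum_add_distrib]
  refine Finset.sum_congr rfl fun p hp => ?_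
  rw [Finset.HasAntidiagonal.mem_antidiagonal] at hp
  rw [coeff_th, coeff_th, ← hp, Finsupp.add_apply]
  push_cast
  ring

theorem th_C (j : σ) (a : ℂ) : th j (MvPowerSeries.C a) = 0 := by
  ext k
  rw [coeff_th, MvPowerSeries.coeff_C]
  split_ifs with h
  · subst h
    simp
  · simp

theorem th_one (j : σ) : th j (1 : MvPowerSeries σ ℂ) = 0 := by
  have := th_C j (1 : ℂ)
  rwa [map_one] at this

theorem th_X (j l : σ) : th j (MvPowerSeries.X l : MvPowerSeries σ ℂ) =
    if l = j then MvPowerSeries.X l else 0 := by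
  ext k
  rw [coeff_th, MvPowerSeries.coeff_X]
  split_ifs with h1 h2 h2
  · subst h1 h2
    rw [MvPowerSeries.coeff_X, if_pos rfl]
    simp
  · subst h1
    simp [Finsupp.single_apply, h2]
  · subst h2
    rw [MvPowerSeries.coeff_X, if_neg h1]
    simp
  · simp

/-- `z_j ∂_j` on polynomials with the parameter -/
noncomputable def thP (j : σ) (A : MvPolynomial (Option σ) ℂ) : MvPolynomial (Option σ) ℂ :=
  X (some j) * pderiv (some j) A

theorem thP_mul (j : σ) (A B : MvPolynomial (Option σ) ℂ) :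
    thP j (A * B) = thP j A * B + A * thP j B := by
  unfold thP
  rw [Derivation.leibniz, smul_eq_mul, smul_eq_mul]
  ring

theorem th_psi (j : σ) (r : ℝ) (A : MvPolynomial (Option σ) ℂ) :
    th j ((psi r A : MvPolynomial σ ℂ) : MvPowerSeries σ ℂ) =
      ((psi r (thP j A) : MvPolynomial σ ℂ) : MvPowerSeries σ ℂ) := by
  induction A using MvPolynomial.induction_on with
  | C a =>
    have h1 : thP j (C a : MvPolynomial (Option σ) ℂ) = 0 := by
      unfold thP
      rw [pderiv_C, mul_zero]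
    have h2 : psi r (C a : MvPolynomial (Option σ) ℂ) = (C a : MvPolynomial σ ℂ) := by
      unfold psi
      rw [aeval_C]
      rfl
    rw [h1, h2, map_zero, MvPolynomial.coe_C, th_C, MvPolynomial.coe_zero]
  | add A B hA hB =>
    have h1 : thP j (A + B) = thP j A + thP j B := by
      unfold thP
      rw [map_add, mul_add]
    rw [h1, map_add, map_add, MvPolynomial.coe_add, MvPolynomial.coe_add, th_add, hA, hB]
  | mul_X A i hA =>
    rw [thP_mul, map_mul, map_add, map_mul, map_mul, MvPolynomial.coe_mul, th_mul, hA,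
      MvPolynomial.coe_add, MvPolynomial.coe_mul, MvPolynomial.coe_mul]
    congr 2
    cases i with
    | none =>
      have h1 : psi r (X none : MvPolynomial (Option σ) ℂ) = (C (r : ℂ) : MvPolynomial σ ℂ) := by
        unfold psi
        rw [aeval_X]
        rfl
      have h2 : thP j (X none : MvPolynomial (Option σ) ℂ) = 0 := by
        unfold thP
        rw [pderiv_X_of_ne (by simp), mul_zero]
      rw [h1, h2, map_zero, MvPolynomial.coe_C, th_C, MvPolynomial.coe_zero]
    | some l =>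
      have h1 : psi r (X (some l) : MvPolynomial (Option σ) ℂ) = (X l : MvPolynomial σ ℂ) := by
        unfold psi
        rw [aeval_X]
        rfl
      rw [h1, MvPolynomial.coe_X, th_X]
      split_ifs with h
      · subst h
        have h2 : thP l (X (some l) : MvPolynomial (Option σ) ℂ) = X (some l) := by
          unfold thP
          rw [pderiv_X_self, mul_one]
        rw [h2, h1, MvPolynomial.coe_X]
      · have h2 : thP j (X (some l) : MvPolynomial (Option σ) ℂ) = 0 := by
          unfold thP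
          rw [pderiv_X_of_ne (by simpa using h), mul_zero]
        rw [h2, map_zero, MvPolynomial.coe_zero]

/-- `P (X none * X_j)` -/
noncomputable def bigP (P : MvPolynomial σ ℂ) : MvPolynomial (Option σ) ℂ :=
  aeval (fun j => X none * X (some j)) P

theorem psi_bigP (r : ℝ) (P : MvPolynomial σ ℂ) : psi r (bigP P) = scaleP r P := by
  have h : ((psi r).comp (aeval (fun j => X none * X (some j)) :
      MvPolynomial σ ℂ →ₐ[ℂ] MvPolynomial (Option σ) ℂ)) =
      (aeval (fun j => C (r : ℂ) * X j) : MvPolynomial σ ℂ →ₐ[ℂ] MvPolynomial σ ℂ) := by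
    refine MvPolynomial.algHom_ext fun j => ?_
    simp [psi]
  exact congrArg (fun f => f P) h

theorem psi_rename (r : ℝ) (Q : MvPolynomial σ ℂ) : psi r (rename some Q) = Q := by
  unfold psi
  rw [aeval_rename]
  have : ((fun o : Option σ => o.elim (C (r : ℂ)) X) ∘ some) = (X : σ → MvPolynomial σ ℂ) := rfl
  rw [this, aeval_X_left_apply]

theorem scale_mul_invR {P : MvPolynomial σ ℂ} (hP : ZeroFree P) (r : ℝ) :
    ((scaleP r P : MvPolynomial σ ℂ) : MvPowerSeries σ ℂ) * invR P r = 1 := by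
  rw [coe_scaleP, invR, ← map_mul, MvPowerSeries.mul_inv_cancel _ (constantCoeff_ne hP), map_one]

theorem th_invR {P : MvPolynomial σ ℂ} (hP : ZeroFree P) (r : ℝ) (j : σ) :
    th j (invR P r) = - ((psi r (thP j (bigP P)) : MvPolynomial σ ℂ) : MvPowerSeries σ ℂ) *
      invR P r ^ 2 := by
  have h1 := scale_mul_invR hP r
  have h2 := congrArg (th j) h1
  rw [th_mul, th_one, ← psi_bigP, th_psi] at h2
  rw [← psi_bigP] at h1
  set S : MvPowerSeries σ ℂ := ((psi r (bigP P) : MvPolynomial σ ℂ) : MvPowerSeries σ ℂ)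
  set I := invR P r
  set D : MvPowerSeries σ ℂ := ((psi r (thP j (bigP P)) : MvPolynomial σ ℂ) : MvPowerSeries σ ℂ)
  calc th j I = (S * I) * th j I := by rw [h1, one_mul]
    _ = I * (D * I + S * th j I) - D * I ^ 2 := by ring
    _ = _ := by rw [h2]; ring

theorem th_pow (j : σ) (F : MvPowerSeries σ ℂ) (m : ℕ) :
    th j (F ^ (m + 1)) = ((m + 1 : ℕ) : MvPowerSeries σ ℂ) * F ^ m * th j F := by
  induction m with
  | zero => simp
  | succ m ih =>
    rw [pow_succ, th_mul, ih]
    push_cast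
    ring

/-- the operator `z_j ∂_j + 1` -/
noncomputable def ope (j : σ) (G : MvPowerSeries σ ℂ) : MvPowerSeries σ ℂ := th j G + G

theorem coeff_ope (j : σ) (G : MvPowerSeries σ ℂ) (k : σ →₀ ℕ) :
    MvPowerSeries.coeff k (ope j G) = ((k j : ℂ) + 1) * MvPowerSeries.coeff k G := by
  unfold ope
  rw [map_add, coeff_th]
  ring

/-- the new numerator -/
noncomputable def num (P : MvPolynomial σ ℂ) (m : ℕ) (j : σ) (A : MvPolynomial (Option σ) ℂ) :
    MvPolynomial (Option σ) ℂ :=
  bigP P * thP j A - (m : MvPolynomial (Option σ) ℂ) * A * thP j (bigP P) + A * bigP P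

theorem ope_psi {P : MvPolynomial σ ℂ} (hP : ZeroFree P) (r : ℝ) (j : σ)
    (A : MvPolynomial (Option σ) ℂ) (m : ℕ) :
    ope j (((psi r A : MvPolynomial σ ℂ) : MvPowerSeries σ ℂ) * invR P r ^ (m + 1)) =
      ((psi r (num P (m + 1) j A) : MvPolynomial σ ℂ) : MvPowerSeries σ ℂ) *
        invR P r ^ (m + 2) := by
  unfold ope num
  rw [th_mul, th_psi, th_pow, th_invR hP]
  have h1 := scale_mul_invR hP r
  rw [← psi_bigP] at h1
  have hsub : ∀ A B : MvPolynomial σ ℂ, ((A - B : MvPolynomial σ ℂ) : MvPowerSeries σ ℂ) =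
      (A : MvPowerSeries σ ℂ) - (B : MvPowerSeries σ ℂ) := fun A B =>
    map_sub (MvPolynomial.coeToMvPowerSeries.ringHom (σ := σ) (R := ℂ)) A B
  simp only [map_add, map_sub, map_mul, map_natCast, MvPolynomial.coe_add, MvPolynomial.coe_mul,
    hsub]
  have h3 : (((((m + 1 : ℕ) : MvPolynomial σ ℂ)) : MvPolynomial σ ℂ) : MvPowerSeries σ ℂ) =
      ((m + 1 : ℕ) : MvPowerSeries σ ℂ) :=
    map_natCast (MvPolynomial.coeToMvPowerSeries.ringHom (σ := σ) (R := ℂ)) (m + 1)
  rw [h3]
  set S : MvPowerSeries σ ℂ := ((psi r (bigP P) : MvPolynomial σ ℂ) : MvPowerSeries σ ℂ)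
  set I := invR P r
  set D : MvPowerSeries σ ℂ := ((psi r (thP j (bigP P)) : MvPolynomial σ ℂ) : MvPowerSeries σ ℂ)
  set a : MvPowerSeries σ ℂ := ((psi r A : MvPolynomial σ ℂ) : MvPowerSeries σ ℂ)
  set b : MvPowerSeries σ ℂ := ((psi r (thP j A) : MvPolynomial σ ℂ) : MvPowerSeries σ ℂ)
  have h4 : I ^ (m + 1) = S * I ^ (m + 2) := by
    rw [pow_succ I (m + 1), ← mul_assoc, mul_comm S, mul_assoc, h1, mul_one]
  calc b * I ^ (m + 1) + a * (((m + 1 : ℕ) : MvPowerSeries σ ℂ) * I ^ m * (-D * I ^ 2)) +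
        a * I ^ (m + 1) = b * I ^ (m + 1) - ((m + 1 : ℕ) : MvPowerSeries σ ℂ) * a * D *
        I ^ (m + 2) + a * I ^ (m + 1) := by ring
    _ = _ := by rw [h4]; ring

theorem dvd_num (P : MvPolynomial σ ℂ) (m : ℕ) (j : σ) {A Q : MvPolynomial (Option σ) ℂ} {b : ℕ}
    (h : Q ^ (b + 1) ∣ A) : Q ^ b ∣ num P m j A := by
  obtain ⟨R, rfl⟩ := h
  have h1 : Q ^ b ∣ Q ^ (b + 1) * R := (pow_dvd_pow Q (Nat.le_succ b)).mul_right R
  have h2 : Q ^ b ∣ thP j (Q ^ (b + 1) * R) := by
    rw [thP_mul]
    refine dvd_add (Dvd.dvd.mul_right ?_ _) ((pow_dvd_pow Q (Nat.le_succ b)).mul_right _)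
    unfold thP
    rw [Derivation.leibniz_pow]
    simp only [Nat.add_sub_cancel, smul_eq_mul, nsmul_eq_mul]
    exact ⟨X (some j) * (((b + 1 : ℕ) : MvPolynomial (Option σ) ℂ) * (pderiv (some j)) Q), by
      push_cast; ring⟩
  unfold num
  exact dvd_add (dvd_sub (h2.mul_left _) ((h1.mul_left _).mul_right _)) (h1.mul_right _)

/-- apply the operators of a list -/
theorem exists_num {P : MvPolynomial σ ℂ} (hP : ZeroFree P) (Q : MvPolynomial (Option σ) ℂ)
    (l : List σ) : ∀ (a m : ℕ) (A : MvPolynomial (Option σ) ℂ), Q ^ (a + l.length) ∣ A →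
    ∃ B : MvPolynomial (Option σ) ℂ, Q ^ a ∣ B ∧ ∀ (r : ℝ) (k : σ →₀ ℕ),
      (l.map fun j => ((k j : ℂ) + 1)).prod * MvPowerSeries.coeff k
        (((psi r A : MvPolynomial σ ℂ) : MvPowerSeries σ ℂ) * invR P r ^ (m + 1)) =
      MvPowerSeries.coeff k (((psi r B : MvPolynomial σ ℂ) : MvPowerSeries σ ℂ) *
        invR P r ^ (m + l.length + 1)) := by
  induction l with
  | nil =>
    intro a m A hA
    exact ⟨A, by simpa using hA, fun r k => by simp⟩
  | cons j l ih =>
    intro a m A hA
    have h1 : Q ^ (a + l.length) ∣ num P (m + 1) j A :=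
      dvd_num P (m + 1) j (by simpa [add_assoc] using hA)
    obtain ⟨B, hB1, hB2⟩ := ih a (m + 1) _ h1
    refine ⟨B, hB1, fun r k => ?_⟩
    rw [List.map_cons, List.prod_cons, List.length_cons]
    have h2 := hB2 r k
    rw [show m + 1 + l.length + 1 = m + (l.length + 1) + 1 by ring] at h2
    rw [← h2, ← ope_psi hP, coeff_ope]
    ring

theorem s_op : S_OP := by
  intro σ _ _ P Q hP s a
  set l : List σ := (List.replicate s (Finset.univ : Finset σ).toList).flatten with hl
  have hlen : l.length = s * Fintype.card σ := by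
    rw [hl, List.length_flatten, List.map_replicate, List.sum_replicate, Finset.length_toList,
      Finset.card_univ, smul_eq_mul]
  have hprod : ∀ k : σ →₀ ℕ, (l.map fun j => ((k j : ℂ) + 1)).prod = ∏ j, ((k j : ℂ) + 1) ^ s := by
    intro k
    rw [hl, List.map_flatten, List.map_replicate, List.prod_flatten, List.map_replicate,
      List.prod_replicate, Finset.prod_map_toList, Finset.prod_pow]
  obtain ⟨B, hB1, hB2⟩ := exists_num hP (rename some Q) l a 0
    (rename some (Q ^ (a + s * Fintype.card σ) * P)) (by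
      rw [map_mul, map_pow, hlen]
      exact Dvd.intro _ rfl)
  refine ⟨B, hB1, fun r k => ?_⟩
  have h := hB2 r k
  rw [hprod, psi_rename, hlen, zero_add, zero_add, pow_one] at h
  exact h

end Pool.Agent.J6H91.TZ
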