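import Pool.Agent.J6H91.TZ.Stm
import Pool.Agent.J6H91.Cyc.Slice

/-!
# Bessel's inequality for absolutely convergent series on the torus
-/

set_option autoImplicit false

namespace Pool.Agent.J6H91.TZ

open MvPolynomial Filter Topology Pool.Agent.J6H91.Cyc

theorem s_par : S_PAR := by
  intro σ _ _ G C hG hC
  have hC0 : 0 ≤ C := (norm_nonneg _).trans (hC (fun _ => 1) (by simp))
  have hz : ∀ z : σ → ℂ, (∀ j, ‖z j‖ = 1) → ∀ k : σ →₀ ℕ, ‖∏ j, z j ^ k j‖ = 1 := by
    intro z hz k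
    rw [norm_prod]
    exact Finset.prod_eq_one fun j _ => by rw [norm_pow, hz, one_pow]
  have key : ∀ ε : ℝ, 0 < ε → ∀ T : Finset (σ →₀ ℕ),
      ∑ k ∈ T, ‖MvPowerSeries.coeff k G‖ ^ 2 ≤ (C + ε) ^ 2 := by
    intro ε hε T
    obtain ⟨S₀, hS₀⟩ : ∃ S₀ : Finset (σ →₀ ℕ), ∀ S : Finset (σ →₀ ℕ), S₀ ⊆ S →
        ∑' k : { k // k ∉ S }, ‖MvPowerSeries.coeff k.1 G‖ < ε := by
      have h1 := tendsto_tsum_compl_atTop_zero (fun k => ‖MvPowerSeries.coeff k G‖)
      have h2 := h1.eventually (gt_mem_nhds hε)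
      obtain ⟨S₀, h3⟩ := Filter.eventually_atTop.1 h2
      exact ⟨S₀, fun S hS => h3 S hS⟩
    set S := S₀ ∪ T with hSdef
    have hsub : S₀ ⊆ S := Finset.subset_union_left
    obtain ⟨M, hM⟩ : ∃ M : ℕ, ∀ k ∈ S, ∀ j, k j < M := by
      refine ⟨(S.sup fun k => ∑ j, k j) + 1, fun k hk j => Nat.lt_succ_of_le ?_⟩
      refine le_trans ?_ (Finset.le_sup (f := fun k : σ →₀ ℕ => ∑ j, k j) hk)
      exact Finset.single_le_sum (f := fun j => k j) (fun _ _ => Nat.zero_le _) (Finset.mem_univ j)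
    have hM1 : ∀ k ∈ S, ∀ j, k j < M + 1 := fun k hk j => (hM k hk j).trans (Nat.lt_succ_self M)
    have hbd : ∀ z : σ → ℂ, (∀ j, ‖z j‖ = 1) →
        ‖∑ k ∈ S, MvPowerSeries.coeff k G * ∏ j, z j ^ k j‖ ≤ C + ε := by
      intro z hz1
      have hs : Summable fun k => MvPowerSeries.coeff k G * ∏ j, z j ^ k j := by
        refine Summable.of_norm ?_
        refine hG.congr fun k => ?_
        rw [norm_mul, hz z hz1, mul_one]
      have h1 := hs.sum_add_tsum_compl (s := S)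
      have h2 : ∑ k ∈ S, MvPowerSeries.coeff k G * ∏ j, z j ^ k j =
          ∑' k, MvPowerSeries.coeff k G * ∏ j, z j ^ k j -
          ∑' k : { k // k ∉ S }, MvPowerSeries.coeff k.1 G * ∏ j, z j ^ k.1 j := by
        rw [← h1]
        exact (add_sub_cancel_right _ _).symm
      rw [h2]
      refine (norm_sub_le _ _).trans (add_le_add (hC z hz1) ?_)
      refine le_trans (norm_tsum_le_tsum_norm ?_) ?_
      · refine (hG.subtype (fun k => k ∉ S)).congr fun k => ?_
        rw [norm_mul, hz z hz1, mul_one]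
        rfl
      · refine le_trans (le_of_eq ?_) (hS₀ S hsub).le
        refine tsum_congr fun k => ?_
        rw [norm_mul, hz z hz1, mul_one]
    have hp := parseval (Nat.succ_pos M) S hM1 (fun k => MvPowerSeries.coeff k G)
    have h1 : ∑ a : σ → Fin (M + 1), ‖∑ k ∈ S, MvPowerSeries.coeff k G *
        ∏ j, ru (M + 1) (a j) ^ k j‖ ^ 2 ≤ ∑ _a : σ → Fin (M + 1), (C + ε) ^ 2 :=
      Finset.sum_le_sum fun a _ => pow_le_pow_left₀ (norm_nonneg _)
        (hbd _ fun j => norm_ru _ _) 2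
    rw [Finset.sum_const, Finset.card_univ, Fintype.card_fun, Fintype.card_fin, nsmul_eq_mul] at h1
    change ∑ a : σ → Fin (M + 1), ‖∑ k ∈ S, MvPowerSeries.coeff k G *
        ∏ j, ru (M + 1) (a j) ^ k j‖ ^ 2 = _ at hp
    rw [hp] at h1
    have h2 : (0 : ℝ) < ((M + 1 : ℕ) : ℝ) ^ Fintype.card σ := by positivity
    have h3 : ∑ k ∈ S, ‖MvPowerSeries.coeff k G‖ ^ 2 ≤ (C + ε) ^ 2 := by
      push_cast at h1 h2
      exact le_of_mul_le_mul_left h1 h2
    refine le_trans ?_ h3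
    exact Finset.sum_le_sum_of_subset_of_nonneg Finset.subset_union_right
      fun _ _ _ => by positivity
  have key2 : ∀ T : Finset (σ →₀ ℕ), ∑ k ∈ T, ‖MvPowerSeries.coeff k G‖ ^ 2 ≤ C ^ 2 := by
    intro T
    refine le_of_forall_pos_le_add fun δ hδ => ?_
    have h1 : ∃ ε : ℝ, 0 < ε ∧ (C + ε) ^ 2 ≤ C ^ 2 + δ := by
      refine ⟨min 1 (δ / (2 * C + 1)), lt_min one_pos (by positivity), ?_⟩
      set e := min 1 (δ / (2 * C + 1)) with he
      have he0 : 0 < e := lt_min one_pos (by positivity)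
      have he1 : e ≤ 1 := min_le_left _ _
      have he2 : e ≤ δ / (2 * C + 1) := min_le_right _ _
      have he3 : e * (2 * C + 1) ≤ δ := by
        rw [le_div_iff₀ (by positivity)] at he2
        exact he2
      nlinarith
    obtain ⟨ε, hε, h2⟩ := h1
    exact (key ε hε T).trans h2
  exact ⟨summable_of_sum_le (fun k => by positivity) key2,
    Real.tsum_le_of_sum_le (fun k => by positivity) key2⟩

end Pool.Agent.J6H91.TZ
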