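import Pool.Agent.J6H91.TZ.Weak
import Pool.Agent.J6H91.TZ.Op
import Pool.Agent.J6H91.TZ.Par

/-!
# The comparison theorem
-/

set_option autoImplicit false

namespace Pool.Agent.J6H91.TZ

open MvPolynomial Filter Topology Pool.Agent.J6H91.Cyc

/-- **TZ-CMP**, the comparison theorem. -/
theorem s_cmp (hLOJ : S_LOJ) (hLT : S_LT) (hEV : S_EV) : S_CMP := by
  intro σ _ _ t P Q hP hPQ hQ
  obtain ⟨N, C₀, hC₀⟩ := hLT hLOJ σ P Q hP hPQ
  set s : ℕ := ⌈|t|⌉₊ with hs
  have hts : t ≤ 2 * (s : ℝ) := by
    have h1 : |t| ≤ s := Nat.le_ceil _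
    have h2 : t ≤ |t| := le_abs_self t
    have h3 : (0 : ℝ) ≤ s := Nat.cast_nonneg s
    linarith
  set n : ℕ := s * Fintype.card σ with hn
  set m : ℕ := n + 1 with hm
  set a : ℕ := N * m with ha
  obtain ⟨B, ⟨R, hR⟩, hB⟩ := s_op σ P Q hP s a
  -- bound for the remaining factor
  obtain ⟨A, hA⟩ : ∃ A : ℝ, ∀ r : ℝ, 0 ≤ r → r ≤ 1 → ∀ z : σ → ℂ, (∀ j, ‖z j‖ = 1) →
      ‖eval z (psi r R)‖ ≤ A := by
    have hev : ∀ (r : ℝ) (z : σ → ℂ), eval z (psi r R) =
        eval (fun o : Option σ => Option.elim o (r : ℂ) z) R := by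
      intro r z
      have h : ((aeval z : MvPolynomial σ ℂ →ₐ[ℂ] ℂ).comp (psi r)) =
          (aeval (fun o : Option σ => Option.elim o (r : ℂ) z) :
            MvPolynomial (Option σ) ℂ →ₐ[ℂ] ℂ) := by
        refine MvPolynomial.algHom_ext fun o => ?_
        cases o <;> simp [psi]
      have h2 := congrArg (fun f => f R) h
      simpa [MvPolynomial.coe_aeval_eq_eval] using h2
    have hcont : Continuous fun p : ℝ × (σ → ℂ) =>
        eval (fun o : Option σ => Option.elim o (p.1 : ℂ) p.2) R := by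
      refine (MvPolynomial.continuous_eval R).comp (continuous_pi fun o => ?_)
      cases o with
      | none => exact Complex.continuous_ofReal.comp continuous_fst
      | some j => exact (continuous_apply j).comp continuous_snd
    have hK : IsCompact ((Set.Icc (0 : ℝ) 1) ×ˢ (Metric.closedBall (0 : σ → ℂ) 1)) :=
      isCompact_Icc.prod (isCompact_closedBall _ _)
    obtain ⟨A, hA⟩ := hK.exists_bound_of_continuousOn hcont.continuousOn
    refine ⟨A, fun r hr0 hr1 z hz => ?_⟩
    rw [hev]
    refine hA (r, z) ⟨⟨hr0, hr1⟩, ?_⟩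
    rw [mem_closedBall_zero_iff]
    exact (pi_norm_le_iff_of_nonneg zero_le_one).mpr fun j => (hz j).le
  set C : ℝ := max C₀ 0 with hC
  have hC0 : 0 ≤ C := le_max_right _ _
  have hA0 : 0 ≤ A := (norm_nonneg _).trans (hA 0 le_rfl zero_le_one (fun _ => 1) (by simp))
  -- the derivative is bounded on the torus
  have hsup : ∀ r : ℝ, 0 ≤ r → r < 1 → ∀ z : σ → ℂ, (∀ j, ‖z j‖ = 1) →
      ‖∑' k, MvPowerSeries.coeff k (((psi r B : MvPolynomial σ ℂ) : MvPowerSeries σ ℂ) *
        invR P r ^ m) * ∏ j, z j ^ k j‖ ≤ C ^ m * A := by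
    intro r hr0 hr1 z hz
    rw [(hEV σ P hP r hr0 hr1 (psi r B) m).2 z hz, norm_div, norm_pow]
    have hp : eval (fun j => (r : ℂ) * z j) P ≠ 0 := by
      refine hP _ fun j => ?_
      rw [norm_mul, hz, mul_one, Complex.norm_real, Real.norm_of_nonneg hr0]
      exact hr1
    have hp' : 0 < ‖eval (fun j => (r : ℂ) * z j) P‖ := norm_pos_iff.mpr hp
    rw [div_le_iff₀ (by positivity), hR, map_mul, map_mul, map_pow, psi_rename, norm_mul, map_pow,
      norm_pow]
    have h1 : ‖eval z Q‖ ^ N ≤ C * ‖eval (fun j => (r : ℂ) * z j) P‖ :=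
      (hC₀ r hr0 hr1.le z hz).trans (mul_le_mul_of_nonneg_right (le_max_left _ _) hp'.le)
    have h2 : ‖eval z Q‖ ^ a ≤ (C * ‖eval (fun j => (r : ℂ) * z j) P‖) ^ m := by
      rw [ha, pow_mul]
      exact pow_le_pow_left₀ (by positivity) h1 m
    calc ‖eval z Q‖ ^ a * ‖eval z (psi r R)‖
        ≤ (C * ‖eval (fun j => (r : ℂ) * z j) P‖) ^ m * A :=
          mul_le_mul h2 (hA r hr0 hr1.le z hz) (norm_nonneg _) (by positivity)
      _ = _ := by rw [mul_pow]; ring
  set F : MvPolynomial σ ℂ := Q ^ (a + n) with hF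
  have hbound : ∀ r : ℝ, 0 ≤ r → r < 1 →
      MemD t (fun k => MvPowerSeries.coeff k
        (((F * P : MvPolynomial σ ℂ) : MvPowerSeries σ ℂ) * invR P r)) ∧
      normSq t (fun k => MvPowerSeries.coeff k
        (((F * P : MvPolynomial σ ℂ) : MvPowerSeries σ ℂ) * invR P r)) ≤ (C ^ m * A) ^ 2 := by
    intro r hr0 hr1
    obtain ⟨h1, h2⟩ := s_par σ _ (C ^ m * A) (hEV σ P hP r hr0 hr1 (psi r B) m).1
      (hsup r hr0 hr1)
    have h3 : ∀ k, weight t k * ‖MvPowerSeries.coeff k
        (((F * P : MvPolynomial σ ℂ) : MvPowerSeries σ ℂ) * invR P r)‖ ^ 2 ≤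
        ‖MvPowerSeries.coeff k (((psi r B : MvPolynomial σ ℂ) : MvPowerSeries σ ℂ) *
          invR P r ^ m)‖ ^ 2 := by
      intro k
      rw [← hB r k, norm_mul, mul_pow]
      refine mul_le_mul_of_nonneg_right ?_ (by positivity)
      rw [norm_prod, ← Finset.prod_pow, weight]
      refine Finset.prod_le_prod (fun j _ => by positivity) fun j _ => ?_
      have h4 : ‖((k j : ℂ) + 1) ^ s‖ = ((k j : ℝ) + 1) ^ s := by
        rw [norm_pow]
        congr 1
        have : ((k j : ℂ) + 1) = (((k j : ℝ) + 1 : ℝ) : ℂ) := by push_cast; rfl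
        rw [this, Complex.norm_real, Real.norm_of_nonneg (by positivity)]
      rw [h4, ← pow_mul, ← Real.rpow_natCast]
      refine Real.rpow_le_rpow_of_exponent_le (by simp) ?_
      push_cast
      linarith
    have h5 := Summable.of_nonneg_of_le (fun k => by have := weight_nonneg t k; positivity) h3 h1
    exact ⟨h5, (h5.tsum_le_tsum h3 h1).trans h2⟩
  -- radii
  set r : ℕ → ℝ := fun n => 1 - 1 / ((n : ℝ) + 2) with hr
  have hr0 : ∀ n, 0 ≤ r n := by
    intro n
    rw [hr]
    simp only
    rw [sub_nonneg, div_le_one (by positivity)]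
    have : (0:ℝ) ≤ n := Nat.cast_nonneg n
    linarith
  have hr1 : ∀ n, r n < 1 := by
    intro n
    rw [hr]
    simp only
    have : 0 < 1 / ((n : ℝ) + 2) := by positivity
    linarith
  have hrlim : Tendsto r atTop (𝓝 1) := by
    have h1 : Tendsto (fun n : ℕ => 1 / ((n : ℝ) + 2)) atTop (𝓝 0) := by
      have := tendsto_one_div_add_atTop_nhds_zero_nat (𝕜 := ℝ)
      have h2 := (tendsto_add_atTop_iff_nat 1).mpr this
      refine h2.congr fun n => ?_
      push_cast
      ring_nf
    have := h1.const_sub 1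
    rw [sub_zero] at this
    exact this
  have happF := approx_of_weak (t := t) (P := P) (f := F)
    (fun i k => MvPowerSeries.coeff k
      (((F * P : MvPolynomial σ ℂ) : MvPowerSeries σ ℂ) * invR P (r i)))
    (fun i => (hbound (r i) (hr0 i) (hr1 i)).1) _
    (fun i => (hbound (r i) (hr0 i) (hr1 i)).2) (by
      intro k
      have h2 : F.coeff k = MvPowerSeries.coeff k
          (((F * P : MvPolynomial σ ℂ) : MvPowerSeries σ ℂ) * (P : MvPowerSeries σ ℂ)⁻¹) := by
        rw [MvPolynomial.coe_mul, mul_assoc, MvPowerSeries.mul_inv_cancel _ (constantCoeff_ne hP),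
          mul_one, MvPolynomial.coeff_coe]
      rw [h2]
      simp_rw [MvPowerSeries.coeff_mul]
      refine tendsto_finsetSum _ fun p _ => ?_
      refine Tendsto.const_mul _ ?_
      simp_rw [coeff_invR]
      have h4 : Tendsto (fun n => ((r n : ℂ))) atTop (𝓝 1) := by
        have := (Complex.continuous_ofReal.tendsto 1).comp hrlim
        rw [Complex.ofReal_one] at this
        exact this
      have h5 := (h4.pow (∑ j, p.2 j)).mul_const
        (MvPowerSeries.coeff p.2 ((P : MvPowerSeries σ ℂ)⁻¹))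
      simpa using h5) (by
      intro i ε hε
      obtain ⟨C1, hC1, hC2⟩ := exists_series_mul_bound t (F * P)
      obtain ⟨q, hq⟩ := exists_truncation t (memD_invR t hP (hr0 i) (hr1 i)) (ε := ε / C1)
        (by positivity)
      refine ⟨q * F, ?_⟩
      have h1 := hC2 (invR P (r i) - (q : MvPowerSeries σ ℂ)) (by
        have := (memD_invR t hP (hr0 i) (hr1 i)).sub (memD_coeff t q)
        refine this.congr fun k => ?_
        simp only [map_sub, MvPolynomial.coeff_coe])
      have h2 : (fun k => MvPowerSeries.coeff k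
          (((F * P : MvPolynomial σ ℂ) : MvPowerSeries σ ℂ) * invR P (r i)) -
          (q * F * P).coeff k) = fun k => MvPowerSeries.coeff k
          (((F * P : MvPolynomial σ ℂ) : MvPowerSeries σ ℂ) *
          (invR P (r i) - (q : MvPowerSeries σ ℂ))) := by
        funext k
        rw [mul_sub, map_sub, ← MvPolynomial.coe_mul, MvPolynomial.coeff_coe,
          show F * P * q = q * F * P by ring]
      rw [h2]
      refine lt_of_le_of_lt h1.2 ?_
      have h3 : normSq t (fun k => MvPowerSeries.coeff k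
          (invR P (r i) - (q : MvPowerSeries σ ℂ))) =
          normSq t (fun k => MvPowerSeries.coeff k (invR P (r i)) - q.coeff k) := by
        simp only [map_sub, MvPolynomial.coeff_coe]
      rw [h3]
      calc _ < C1 * (ε / C1) := mul_lt_mul_of_pos_left hq hC1
        _ = ε := by field_simp)
  -- conclusion
  have hFc : ApproxOne t F := by
    rw [hF]
    clear_value a n
    generalize a + n = b
    induction b with
    | zero =>
      rw [pow_zero]
      have := approxOne_C (σ := σ) (t := t) (a := 1) one_ne_zero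
      rwa [C_1] at this
    | succ b ih =>
      rw [pow_succ]
      exact ih.mul hQ
  intro ε hε
  obtain ⟨p, hp⟩ := hFc (ε / 4) (by positivity)
  obtain ⟨C1, hC1, hC2⟩ := exists_mul_bound t p
  obtain ⟨q, hq⟩ := happF (ε / (4 * C1)) (by positivity)
  refine ⟨p * q, ?_⟩
  have h1 := normSq_add_le (memD_coeff t (1 - p * F)) (memD_coeff t (p * (F - q * P)))
  have h2 : (fun k => (1 - p * q * P).coeff k) =
      fun k => (1 - p * F).coeff k + (p * (F - q * P)).coeff k := by
    funext k
    rw [← MvPolynomial.coeff_add]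
    congr 1
    ring
  rw [h2]
  have h3 := hC2 (F - q * P)
  have h5 : normSq t (fun k => (F - q * P).coeff k) < ε / (4 * C1) := by
    simpa only [MvPolynomial.coeff_sub] using hq
  have h4 : C1 * normSq t (fun k => (F - q * P).coeff k) < ε / 4 := by
    calc _ < C1 * (ε / (4 * C1)) := mul_lt_mul_of_pos_left h5 hC1
      _ = ε / 4 := by field_simp
  linarith

end Pool.Agent.J6H91.TZ
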