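import Pool.Agent.J6H91.Cyc.Closed

/-!
# Geometric decay of the coefficients of `1 / P(r z)`
-/

set_option autoImplicit false

namespace Pool.Agent.J6H91.TZ

open MvPolynomial Filter Topology Pool.Agent.J6H91.Cyc

variable {σ : Type} [Fintype σ] [DecidableEq σ]

theorem coeff_invR (P : MvPolynomial σ ℂ) (r : ℝ) (k : σ →₀ ℕ) :
    MvPowerSeries.coeff k (invR P r) =
      (r : ℂ) ^ (∑ j, k j) * MvPowerSeries.coeff k ((P : MvPowerSeries σ ℂ)⁻¹) := by
  rw [invR, MvPowerSeries.coeff_rescale, Finsupp.prod_fintype _ _ (by simp),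
    Finset.prod_pow_eq_pow_sum]

theorem bounded_invR {P : MvPolynomial σ ℂ} (hP : ZeroFree P) {r : ℝ} (hr0 : 0 ≤ r) (hr1 : r < 1) :
    ∃ B : ℝ, 0 ≤ B ∧ ∀ k, ‖MvPowerSeries.coeff k (invR P r)‖ ^ 2 ≤ B := by
  obtain ⟨A, B, hAB⟩ := bd_prod_geo hr0 hr1 P.totalDegree
  have hsl : ∀ ζ : σ → ℂ, (∀ j, ‖ζ j‖ = 1) → BdD (slice ζ (invR P r))
      (‖(P.coeff 0)⁻¹‖ ^ 2 * B) := by
    intro ζ hζ
    obtain ⟨s, hs1, hs2, hs3⟩ := slices hP ζ hζ
    rw [(hs3 r).1]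
    intro L
    have := (hAB s hs1 hs2).2 L
    calc ∑ n_1 ∈ Finset.range L, ((n_1 : ℝ) + 1) * ‖PowerSeries.coeff n_1
          (PowerSeries.C (P.coeff 0)⁻¹ * (s.map fun b => geo (r * b)).prod)‖ ^ 2
        = ‖(P.coeff 0)⁻¹‖ ^ 2 * ∑ n_1 ∈ Finset.range L, ((n_1 : ℝ) + 1) *
          ‖PowerSeries.coeff n_1 ((s.map fun b => geo (r * b)).prod)‖ ^ 2 := by
          rw [Finset.mul_sum]
          refine Finset.sum_congr rfl fun m _ => ?_
          rw [PowerSeries.coeff_C_mul, norm_mul, mul_pow]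
          ring
      _ ≤ _ := mul_le_mul_of_nonneg_left this (by positivity)
  refine ⟨_, (hsl (fun _ => 1) (by simp)).nonneg, fun k => ?_⟩
  have h1 := sum_le_of_slices hsl {k}
  rw [Finset.sum_singleton] at h1
  refine le_trans ?_ h1
  have : (1:ℝ) ≤ ((∑ j, k j : ℕ) : ℝ) + 1 := by
    have : (0:ℝ) ≤ ((∑ j, k j : ℕ) : ℝ) := Nat.cast_nonneg _
    linarith
  have h4 : 0 ≤ ‖MvPowerSeries.coeff k (invR P r)‖ ^ 2 := by positivity
  nlinarith

theorem decay_invR {P : MvPolynomial σ ℂ} (hP : ZeroFree P) {r : ℝ} (hr0 : 0 ≤ r) (hr1 : r < 1) :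
    ∃ B x : ℝ, 0 ≤ B ∧ 0 ≤ x ∧ x < 1 ∧ ∀ k,
      ‖MvPowerSeries.coeff k (invR P r)‖ ^ 2 ≤ B * x ^ (∑ j, k j) := by
  obtain ⟨R, hrR, hR1⟩ := exists_between hr1
  have hR0 : 0 < R := hr0.trans_lt hrR
  obtain ⟨B, hB0, hB⟩ := bounded_invR hP hR0.le hR1
  refine ⟨B, (r / R) ^ 2, hB0, by positivity, ?_, fun k => ?_⟩
  · have h1 : r / R < 1 := (div_lt_one hR0).mpr hrR
    have h2 : 0 ≤ r / R := by positivity
    nlinarith
  · have h1 : MvPowerSeries.coeff k (invR P r) =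
        ((r / R : ℝ) : ℂ) ^ (∑ j, k j) * MvPowerSeries.coeff k (invR P R) := by
      rw [coeff_invR, coeff_invR, ← mul_assoc, ← mul_pow]
      congr 2
      have : (R : ℂ) ≠ 0 := by exact_mod_cast hR0.ne'
      push_cast
      field_simp
    rw [h1, norm_mul, norm_pow, Complex.norm_real, Real.norm_of_nonneg (by positivity), mul_pow,
      ← pow_mul, mul_comm _ 2, pow_mul]
    rw [mul_comm B]
    exact mul_le_mul_of_nonneg_left (hB k) (by positivity)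

theorem memD_invR (t : ℝ) {P : MvPolynomial σ ℂ} (hP : ZeroFree P) {r : ℝ} (hr0 : 0 ≤ r)
    (hr1 : r < 1) : MemD t (fun k => MvPowerSeries.coeff k (invR P r)) := by
  obtain ⟨B, x, hB0, hx0, hx1, h⟩ := decay_invR hP hr0 hr1
  have h1 := (summable_prod_of_nonneg (σ := σ)
    (fun _ n => (((n : ℝ) + 1) ^ (-t))⁻¹ * x ^ n) (fun j n => by positivity)
    (fun j => summable_rpow_mul_geometric (-t) x hx0 hx1)).mul_left B
  refine Summable.of_nonneg_of_le (fun k => by have := weight_nonneg t k; positivity)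
    (fun k => ?_) h1
  have h2 : weight t k * x ^ (∑ j, k j) = ∏ j, (((k j : ℝ) + 1) ^ (-t))⁻¹ * x ^ k j := by
    rw [Finset.prod_mul_distrib, Finset.prod_pow_eq_pow_sum, weight]
    congr 1
    refine Finset.prod_congr rfl fun j _ => ?_
    rw [Real.rpow_neg (by positivity), inv_inv]
  calc weight t k * ‖MvPowerSeries.coeff k (invR P r)‖ ^ 2 ≤ weight t k * (B * x ^ (∑ j, k j)) :=
        mul_le_mul_of_nonneg_left (h k) (weight_nonneg t k)
    _ = B * (weight t k * x ^ (∑ j, k j)) := by ring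
    _ = _ := by rw [h2]

end Pool.Agent.J6H91.TZ
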