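import Pool.Agent.J6H91.TZ.Stm2

/-!
# Restriction to a line
-/

set_option autoImplicit false

namespace Pool.Agent.J6H91.TZ

open MvPolynomial Filter Topology Pool.Agent.J6H91.Cyc Pool.Agent.Helper334_SA

/-- a nonzero polynomial does not vanish on a nonempty open set -/
theorem exists_ne_of_open {β : Type} [Fintype β] {O : Set (β → ℝ)} (hO : IsOpen O) (hne : O.Nonempty)
    {f : MvPolynomial β ℝ} (hf : f ≠ 0) : ∃ p ∈ O, eval p f ≠ 0 := by
  by_contra hcon
  push Not at hcon
  apply hf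
  obtain ⟨u, hu⟩ := hne
  obtain ⟨ε, hε, hball⟩ := Metric.isOpen_iff.1 hO u hu
  refine MvPolynomial.funext_set (s := fun b => Set.Ioo (u b - ε) (u b + ε))
    (fun b => Set.Ioo_infinite (by linarith)) fun x hx => ?_
  rw [map_zero]
  refine hcon x (hball ?_)
  rw [Metric.mem_ball, dist_pi_lt_iff hε]
  intro b
  have := hx b (Set.mem_univ b)
  rw [Real.dist_eq, abs_lt]
  constructor <;> linarith [this.1, this.2]

/-- the evaluation of a polynomial in `s`, `w` -/
noncomputable def evh (s w : ℝ) : Polynomial (Polynomial ℝ) →+* ℝ :=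
  (Polynomial.evalRingHom s).comp (Polynomial.mapRingHom (Polynomial.evalRingHom w))

theorem kev_eq (k : Polynomial (Polynomial ℝ)) (s w : ℝ) : kev k s w = evh s w k := rfl

theorem evh_aeval {α : Type} (s w : ℝ) (f : α → Polynomial (Polynomial ℝ)) (h : MvPolynomial α ℝ) :
    evh s w (aeval f h) = eval (fun o => evh s w (f o)) h := by
  have h1 : ((evh s w).comp (aeval f : MvPolynomial α ℝ →ₐ[ℝ] Polynomial (Polynomial ℝ)).toRingHom) =
      eval (fun o => evh s w (f o)) := by
    refine MvPolynomial.ringHom_ext (fun a => ?_) (fun o => ?_)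
    · simp [evh, Polynomial.algebraMap_apply]
    · simp
  exact congrArg (fun g => g h) h1

theorem map_ne_of_kev {k : Polynomial (Polynomial ℝ)} {s w : ℝ} (h : kev k s w ≠ 0) :
    k.map (Polynomial.evalRingHom w) ≠ 0 := by
  intro h0
  apply h
  rw [kev, h0, Polynomial.eval_zero]

theorem s_lin : S_LIN := by
  intro hBAS hINT hPRJ ι _ _ E hE hthin
  classical
  obtain ⟨B, E₁, O, h, hE₁, hO, hOne, hsurj, hrel⟩ := hBAS hINT hPRJ ι E hE hthin
  obtain ⟨x₀, hx₀⟩ : ∃ x₀, x₀ ∈ E₁ := by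
    obtain ⟨u₀, hu₀⟩ := hOne
    obtain ⟨x₀, hx₀, -⟩ := hsurj u₀ hu₀
    exact ⟨x₀, hx₀⟩
  set H : ι → Polynomial (MvPolynomial {b // b ∈ B} ℝ) := fun j =>
    optionEquivLeft ℝ {b // b ∈ B} (h j) with hH
  have hev : ∀ j u w, ev2 (h j) u w = Polynomial.eval w ((H j).map (eval u)) := fun j u w =>
    optionEquivLeft_elim_eval ℝ _ u w (h j)
  have hne : ∀ j, j ∉ B → H j ≠ 0 := by
    intro j hj h0
    obtain ⟨-, u, hu⟩ := hrel x₀ hx₀ j hj
    apply hu
    rw [hev, h0, Polynomial.map_zero, Polynomial.eval_zero]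
  -- the point `p`
  set D : MvPolynomial {b // b ∈ B} ℝ :=
    ∏ j ∈ Finset.univ.filter (fun j => j ∉ B), (H j).leadingCoeff with hD
  have hD0 : D ≠ 0 := Finset.prod_ne_zero_iff.2 fun j hj =>
    Polynomial.leadingCoeff_ne_zero.2 (hne j (Finset.mem_filter.1 hj).2)
  obtain ⟨p, hpO, hpD⟩ := exists_ne_of_open hO hOne hD0
  have hHp : ∀ j, j ∉ B → (H j).map (eval p) ≠ 0 := by
    intro j hj h0
    apply hpD
    rw [hD, map_prod]
    refine Finset.prod_eq_zero (Finset.mem_filter.2 ⟨Finset.mem_univ j, hj⟩) ?_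
    have h1 := congrArg (fun q => Polynomial.coeff q (H j).natDegree) h0
    simpa [Polynomial.coeff_map] using h1
  -- the point `y`
  set R : ι → Finset ℝ := fun j => ((H j).map (eval p)).roots.toFinset.filter
    (fun w => (H j).eval (C w) ≠ 0) with hR
  set D' : MvPolynomial {b // b ∈ B} ℝ :=
    (∏ j : ι, ∏ w ∈ R j, (H j).eval (C w)) * ∏ b, (X b - C (p b)) with hD'
  have hD'0 : D' ≠ 0 := by
    refine mul_ne_zero ?_ ?_
    · exact Finset.prod_ne_zero_iff.2 fun j _ => Finset.prod_ne_zero_iff.2 fun w hw =>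
        (Finset.mem_filter.1 hw).2
    · refine Finset.prod_ne_zero_iff.2 fun b _ => ?_
      intro h0
      have := congrArg (eval (fun _ => p b + 1)) h0
      simp at this
  obtain ⟨y, -, hy⟩ := exists_ne_of_open isOpen_univ Set.univ_nonempty hD'0
  rw [hD', map_mul] at hy
  have hy1 := left_ne_zero_of_mul hy
  have hy2 := right_ne_zero_of_mul hy
  rw [map_prod, Finset.prod_ne_zero_iff] at hy1 hy2
  have hev2 : ∀ j u w, eval u ((H j).eval (C w)) = ev2 (h j) u w := by
    intro j u w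
    rw [hev, Polynomial.eval_map, ← Polynomial.eval₂_id, Polynomial.hom_eval₂]
    simp
  have hyR : ∀ j, ∀ w ∈ R j, ev2 (h j) y w ≠ 0 := by
    intro j w hw
    have h1 := hy1 j (Finset.mem_univ j)
    rw [map_prod, Finset.prod_ne_zero_iff] at h1
    rw [← hev2]
    exact h1 w hw
  have hyp : ∀ b, y b ≠ p b := by
    intro b h0
    apply hy2 b (Finset.mem_univ b)
    rw [map_sub, eval_X, eval_C, h0, sub_self]
  set v : {b // b ∈ B} → ℝ := fun b => y b - p b with hv
  -- the interval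
  obtain ⟨δ, hδ, hδO⟩ : ∃ δ : ℝ, 0 < δ ∧ ∀ s ∈ Set.Ioo (-δ) δ, (fun b => p b + s * v b) ∈ O := by
    have hc : Continuous fun s : ℝ => (fun b => p b + s * v b : {b // b ∈ B} → ℝ) := by fun_prop
    have h1 : (fun s : ℝ => (fun b => p b + s * v b : {b // b ∈ B} → ℝ)) ⁻¹' O ∈ 𝓝 (0 : ℝ) := by
      refine hc.continuousAt.preimage_mem_nhds (hO.mem_nhds ?_)
      simpa using hpO
    obtain ⟨δ, hδ, hball⟩ := Metric.mem_nhds_iff.1 h1
    refine ⟨δ, hδ, fun s hs => hball ?_⟩
    rw [Metric.mem_ball, Real.dist_eq, sub_zero, abs_lt]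
    exact ⟨hs.1, hs.2⟩
  have hsel : ∀ s : ℝ, ∃ x : ι → ℝ, s ∈ Set.Ioo (-δ) δ → x ∈ E₁ ∧
      ∀ b : {b // b ∈ B}, x b = p b + s * v b := by
    intro s
    by_cases hs : s ∈ Set.Ioo (-δ) δ
    · obtain ⟨x, h1, h2⟩ := hsurj _ (hδO s hs)
      exact ⟨x, fun _ => ⟨h1, h2⟩⟩
    · exact ⟨0, fun h => absurd h hs⟩
  choose x hx using hsel
  set K : ι → Polynomial (Polynomial ℝ) := fun j => if hj : j ∈ B then
      Polynomial.C (Polynomial.X - Polynomial.C (p ⟨j, hj⟩)) -
        Polynomial.C (Polynomial.C (v ⟨j, hj⟩)) * Polynomial.X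
    else aeval (fun o => Option.elim o (Polynomial.C Polynomial.X)
      (fun b => Polynomial.C (Polynomial.C (p b)) +
        Polynomial.C (Polynomial.C (v b)) * Polynomial.X)) (h j) with hK
  have hK1 : ∀ j (hj : j ∈ B) s w, kev (K j) s w = w - p ⟨j, hj⟩ - v ⟨j, hj⟩ * s := by
    intro j hj s w
    rw [kev_eq]
    simp only [hK, dif_pos hj]
    simp [evh]
  have hK2 : ∀ j, j ∉ B → ∀ s w, kev (K j) s w = ev2 (h j) (fun b => p b + s * v b) w := by
    intro j hj s w
    rw [kev_eq]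
    simp only [hK, dif_neg hj]
    rw [evh_aeval, ev2]
    congr 2
    funext o
    cases o with
    | none => simp [evh]
    | some b =>
      simp [evh]
      ring
  refine ⟨δ, x, K, hδ, fun s hs => ⟨hE₁ (hx s hs).1, fun j => ?_⟩⟩
  obtain ⟨hx1, hx2⟩ := hx s hs
  by_cases hj : j ∈ B
  · constructor
    · rw [hK1 j hj, hx2 ⟨j, hj⟩]
      ring
    · intro h0
      have h1 : ∀ s', kev (K j) s' (x s j) = 0 := fun s' => by
        rw [kev, h0, Polynomial.eval_zero]
      have h2 := h1 0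
      have h3 := h1 1
      rw [hK1 j hj] at h2 h3
      have h4 : v ⟨j, hj⟩ = 0 := by linarith
      exact hyp ⟨j, hj⟩ (by rw [hv] at h4; simp only at h4; linarith)
  · obtain ⟨hr1, u, hu⟩ := hrel (x s) hx1 j hj
    constructor
    · rw [hK2 j hj]
      rw [← hr1]
      congr 1
      funext b
      exact (hx2 b).symm
    · by_cases hp0 : ev2 (h j) p (x s j) = 0
      · have hmem : x s j ∈ R j := by
          rw [hR, Finset.mem_filter, Multiset.mem_toFinset, Polynomial.mem_roots (hHp j hj),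
            Polynomial.IsRoot.def, ← hev]
          refine ⟨hp0, fun h0 => hu ?_⟩
          rw [← hev2, h0, map_zero]
        refine map_ne_of_kev (s := 1) ?_
        rw [hK2 j hj]
        have := hyR j _ hmem
        convert this using 2
        funext b
        rw [hv]
        ring
      · refine map_ne_of_kev (s := 0) ?_
        rw [hK2 j hj]
        convert hp0 using 2
        simp

end Pool.Agent.J6H91.TZ
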