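import Pool.Agent.J6H91.TZ.Stm2
import Pool.Agent.J6H91.TZ.Cmp

/-!
# Complete classification for `1 - 1/d < t ≤ 1`
-/

set_option autoImplicit false

namespace Pool.Agent.J6H91.TZ

open MvPolynomial Filter Topology Pool.Agent.J6H91.Cyc Pool.Agent.Helper334_SA

variable {σ : Type} [Fintype σ] [DecidableEq σ]

/-- the zeros on the torus -/
def torusZeros (P : MvPolynomial σ ℂ) : Set (σ → ℂ) := {z | (∀ j, ‖z j‖ = 1) ∧ eval z P = 0}

theorem weight_mono {t t' : ℝ} (h : t' ≤ t) (k : σ →₀ ℕ) : weight t' k ≤ weight t k := by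
  unfold weight
  exact Finset.prod_le_prod (fun j _ => by positivity) fun j _ =>
    Real.rpow_le_rpow_of_exponent_le (by simp) h

theorem approxOne_mono {t t' : ℝ} (h : t' ≤ t) {P : MvPolynomial σ ℂ} (hP : ApproxOne t P) :
    ApproxOne t' P := by
  intro ε hε
  obtain ⟨q, hq⟩ := hP ε hε
  refine ⟨q, lt_of_le_of_lt ?_ hq⟩
  refine (memD_coeff t' _).tsum_le_tsum (fun k => ?_) (memD_coeff t _)
  exact mul_le_mul_of_nonneg_right (weight_mono h k) (by positivity)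

/-- if discrete measures on the torus zeros have bounded energies, then `P` is not cyclic -/
theorem not_approxOne_of_discrete {t : ℝ} {P : MvPolynomial σ ℂ} {C c : ℝ} (hc : 0 < c)
    (h : ∀ K : ℕ, ∃ (n : ℕ) (T : Finset ℝ) (z : ℝ → σ → ℂ), 0 < n ∧ (∀ s ∈ T, eval (z s) P = 0) ∧
      c * n ≤ T.card ∧ ∀ S : Finset (σ →₀ ℕ), (∀ k ∈ S, ∀ j, k j < K) →
        ∑ k ∈ S, (weight t k)⁻¹ * ‖(n : ℂ)⁻¹ * ∑ s ∈ T, ∏ j, z s j ^ k j‖ ^ 2 ≤ C) :
    ¬ ApproxOne t P := by
  intro hP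
  have hC0 : 0 ≤ C := by
    obtain ⟨n, T, z, hn, h1, h2, h3⟩ := h 0
    have := h3 ∅ (by simp)
    simpa using this
  obtain ⟨q, hq⟩ := hP (c ^ 2 / (C + 1)) (by positivity)
  set f : MvPolynomial σ ℂ := 1 - q * P with hf
  obtain ⟨K, hK⟩ : ∃ K : ℕ, ∀ k ∈ f.support, ∀ j, k j < K := by
    refine ⟨(f.support.sup fun k => ∑ j, k j) + 1, fun k hk j => Nat.lt_succ_of_le ?_⟩
    refine le_trans ?_ (Finset.le_sup (f := fun k : σ →₀ ℕ => ∑ j, k j) hk)
    exact Finset.single_le_sum (f := fun j => k j) (fun _ _ => Nat.zero_le _) (Finset.mem_univ j)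
  obtain ⟨n, T, z, hn, h1, h2, h3⟩ := h K
  have hn' : (0 : ℝ) < n := by exact_mod_cast hn
  have hE := h3 f.support hK
  set φ : (σ →₀ ℕ) → ℂ := fun k => (n : ℂ)⁻¹ * ∑ s ∈ T, ∏ j, z s j ^ k j with hφ
  have hval : ∑ k ∈ f.support, f.coeff k * φ k = (n : ℂ)⁻¹ * T.card := by
    have h4 : ∀ s ∈ T, ∑ k ∈ f.support, f.coeff k * ∏ j, z s j ^ k j = 1 := by
      intro s hs
      have : eval (z s) f = 1 := by
        rw [hf, map_sub, map_mul, h1 s hs, mul_zero, map_one, sub_zero]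
      rw [← this, MvPolynomial.eval_eq']
    calc ∑ k ∈ f.support, f.coeff k * φ k
        = (n : ℂ)⁻¹ * ∑ s ∈ T, ∑ k ∈ f.support, f.coeff k * ∏ j, z s j ^ k j := by
          rw [Finset.sum_comm, Finset.mul_sum]
          refine Finset.sum_congr rfl fun k _ => ?_
          rw [hφ]
          simp only
          rw [Finset.mul_sum, Finset.mul_sum, Finset.mul_sum]
          refine Finset.sum_congr rfl fun s _ => ?_
          ring
      _ = _ := by
          rw [Finset.sum_congr rfl h4, Finset.sum_const, nsmul_eq_mul, mul_one]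
  have hnorm : c ≤ ‖∑ k ∈ f.support, f.coeff k * φ k‖ := by
    rw [hval, norm_mul, norm_inv, Complex.norm_natCast, Complex.norm_natCast, inv_mul_eq_div,
      le_div_iff₀ hn']
    exact h2
  -- Cauchy-Schwarz
  have hcs : ‖∑ k ∈ f.support, f.coeff k * φ k‖ ^ 2 ≤
      (∑ k ∈ f.support, weight t k * ‖f.coeff k‖ ^ 2) *
      ∑ k ∈ f.support, (weight t k)⁻¹ * ‖φ k‖ ^ 2 := by
    have h5 : ‖∑ k ∈ f.support, f.coeff k * φ k‖ ≤
        ∑ k ∈ f.support, (Real.sqrt (weight t k) * ‖f.coeff k‖) *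
          ((Real.sqrt (weight t k))⁻¹ * ‖φ k‖) := by
      refine (norm_sum_le _ _).trans (Finset.sum_le_sum fun k _ => le_of_eq ?_)
      have := Real.sqrt_pos.mpr (weight_pos t k)
      rw [norm_mul]
      field_simp
    have h6 := Finset.sum_mul_sq_le_sq_mul_sq f.support
      (fun k => Real.sqrt (weight t k) * ‖f.coeff k‖)
      (fun k => (Real.sqrt (weight t k))⁻¹ * ‖φ k‖)
    have h7 : ∀ k, (Real.sqrt (weight t k) * ‖f.coeff k‖) ^ 2 = weight t k * ‖f.coeff k‖ ^ 2 := by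
      intro k
      rw [mul_pow, Real.sq_sqrt (weight_nonneg t k)]
    have h8 : ∀ k, ((Real.sqrt (weight t k))⁻¹ * ‖φ k‖) ^ 2 = (weight t k)⁻¹ * ‖φ k‖ ^ 2 := by
      intro k
      rw [mul_pow, inv_pow, Real.sq_sqrt (weight_nonneg t k)]
    simp only [h7, h8] at h6
    exact (pow_le_pow_left₀ (norm_nonneg _) h5 2).trans h6
  have hns : ∑ k ∈ f.support, weight t k * ‖f.coeff k‖ ^ 2 ≤ normSq t (fun k => f.coeff k) := by
    refine (memD_coeff t f).sum_le_tsum _ fun k _ => ?_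
    have := weight_nonneg t k
    positivity
  have h0 : 0 ≤ ∑ k ∈ f.support, weight t k * ‖f.coeff k‖ ^ 2 :=
    Finset.sum_nonneg fun k _ => by have := weight_nonneg t k; positivity
  have h9 : c ^ 2 ≤ c ^ 2 / (C + 1) * C := by
    calc c ^ 2 ≤ ‖∑ k ∈ f.support, f.coeff k * φ k‖ ^ 2 := pow_le_pow_left₀ hc.le hnorm 2
      _ ≤ _ := hcs
      _ ≤ _ := mul_le_mul (hns.trans hq.le) hE
          (Finset.sum_nonneg fun k _ => by have := weight_nonneg t k; positivity) (by positivity)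
  have h10 : c ^ 2 / (C + 1) * C < c ^ 2 := by
    rw [div_mul_eq_mul_div, div_lt_iff₀ (by positivity)]
    nlinarith [pow_pos hc 2]
  linarith

/-- **Necessity.** -/
theorem thin_of_approxOne (hINT : S_INT) (hPRJ : S_PRJ) (hREA : S_REA) (hBAS : S_BAS)
    (hLIN : S_LIN) (hMIN : S_MIN) (hCNT : S_CNT) (hSEP : S_SEP) (hKER : S_KER) (hENE : S_ENE)
    {t : ℝ} (ht : 1 - 1 / (Fintype.card σ : ℝ) < t) {P : MvPolynomial σ ℂ} (hP : ApproxOne t P) :
    Thin (torusZeros P) := by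
  classical
  by_contra hthin
  rcases isEmpty_or_nonempty σ with hσ | hσ
  · -- no variables
    have hne : (torusZeros P).Nonempty := by
      by_contra hcon
      rw [Set.not_nonempty_iff_eq_empty] at hcon
      exact hthin ⟨fun _ => ∅, fun _ => Set.finite_empty, by rw [hcon]; simp⟩
    obtain ⟨z, hz1, hz2⟩ := hne
    exact not_approxOne_of_zero (z := z) (fun j => (hσ.false j).elim) hz2 hP
  have hcard : (0 : ℝ) < Fintype.card σ := by exact_mod_cast Fintype.card_pos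
  have hcard1 : (1 : ℝ) ≤ Fintype.card σ := by exact_mod_cast Fintype.card_pos
  -- reduce to `t < 1`
  obtain ⟨τ, hτ1, hτ2⟩ : ∃ τ : ℝ, 1 - 1 / (Fintype.card σ : ℝ) < τ ∧ τ < min t 1 := by
    refine exists_between (lt_min ht ?_)
    have : 0 < 1 / (Fintype.card σ : ℝ) := by positivity
    linarith
  have hτt : τ ≤ t := (hτ2.trans_le (min_le_left _ _)).le
  have hτl : τ < 1 := hτ2.trans_le (min_le_right _ _)
  have hτ0 : 0 < τ := by
    have : 1 / (Fintype.card σ : ℝ) ≤ 1 := by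
      rw [div_le_one hcard]
      exact hcard1
    linarith
  have hτc : (1 - τ) * Fintype.card σ < 1 := by
    have h1 : 1 - τ < 1 / (Fintype.card σ : ℝ) := by linarith
    calc (1 - τ) * Fintype.card σ < 1 / (Fintype.card σ : ℝ) * Fintype.card σ :=
          mul_lt_mul_of_pos_right h1 hcard
      _ = 1 := by field_simp
  have hPτ : ApproxOne τ P := approxOne_mono hτt hP
  -- real parts
  set E : Set (σ → ℝ) := {x : σ → ℝ | ∃ z : σ → ℂ, (∀ j, ‖z j‖ = 1) ∧ (∀ j, (z j).re = x j) ∧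
    eval z P = 0} with hE
  have hEsa : SA E := hREA hPRJ σ P
  have hEthin : ¬ Thin E := by
    rintro ⟨F, hF1, hF2⟩
    apply hthin
    refine ⟨fun j => {w : ℂ | ‖w‖ = 1 ∧ w.re ∈ F j}, fun j => ?_, fun z hz => ?_⟩
    · -- finitely many points on the circle over finitely many real parts
      have h1 : {w : ℂ | ‖w‖ = 1 ∧ w.re ∈ F j} ⊆
          ((F j).image fun a => (⟨a, Real.sqrt (1 - a ^ 2)⟩ : ℂ)) ∪
          ((F j).image fun a => (⟨a, - Real.sqrt (1 - a ^ 2)⟩ : ℂ)) := by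
        rintro w ⟨hw1, hw2⟩
        have h2 : w.re ^ 2 + w.im ^ 2 = 1 := by
          have h3 : ‖w‖ ^ 2 = 1 := by rw [hw1, one_pow]
          rw [← Complex.normSq_eq_norm_sq, Complex.normSq_apply] at h3
          nlinarith
        have h4 : Real.sqrt (1 - w.re ^ 2) = |w.im| := by
          rw [show 1 - w.re ^ 2 = w.im ^ 2 by linarith, Real.sqrt_sq_eq_abs]
        rcases abs_cases w.im with ⟨h5, -⟩ | ⟨h5, -⟩
        · left
          exact ⟨w.re, hw2, Complex.ext rfl (by simp only; rw [h4, h5])⟩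
        · right
          exact ⟨w.re, hw2, Complex.ext rfl (by simp only; rw [h4, h5, neg_neg])⟩
      exact ((hF1 j).image _ |>.union ((hF1 j).image _)).subset h1
    · obtain ⟨j, hj⟩ := hF2 (fun j => (z j).re) ⟨z, hz.1, fun _ => rfl, hz.2⟩
      exact ⟨j, hz.1 j, hj⟩
  obtain ⟨δ, x, k, hδ, hx⟩ := hLIN hBAS hINT hPRJ σ E hEsa hEthin
  obtain ⟨A, q, c, M, hA1, hA2, hc, hA3⟩ := hMIN σ δ x k hδ (fun s hs => (hx s hs).2)
  -- lifts to the torus
  have hz : ∀ s : ℝ, ∃ z : σ → ℂ, s ∈ A → (∀ j, ‖z j‖ = 1) ∧ (∀ j, (z j).re = x s j) ∧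
      eval z P = 0 := by
    intro s
    by_cases hs : s ∈ A
    · obtain ⟨z, h1, h2, h3⟩ := (hx s (hA1 hs)).1
      exact ⟨z, fun _ => ⟨h1, h2, h3⟩⟩
    · exact ⟨0, fun h => absurd h hs⟩
  choose z hz using hz
  have hC := fun j => hCNT δ c M (q j) A (fun s => x s j) hδ hc hA1
    (fun s hs => hA3 s hs j)
  choose Cj hCj using hC
  obtain ⟨c₀, hc₀, hsep⟩ := hSEP δ A hA1 hA2
  set C₁ : ℝ := (2 * δ + 1) + ∑ j, |Cj j| with hC₁
  have hC₁j : ∀ j, Cj j ≤ C₁ := by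
    intro j
    have h1 : |Cj j| ≤ ∑ j, |Cj j| :=
      Finset.single_le_sum (f := fun j => |Cj j|) (fun _ _ => abs_nonneg _) (Finset.mem_univ j)
    have := le_abs_self (Cj j)
    linarith
  obtain ⟨C, hC⟩ := hENE hKER σ τ hτ0 hτl hτc C₁
  refine not_approxOne_of_discrete (C := C) hc₀ (fun K => ?_) hPτ
  obtain ⟨n, hn0, hn⟩ := hC K
  obtain ⟨T, hT1, hT2, hT3, hT4⟩ := hsep n hn0
  have hn' : (1 : ℝ) ≤ n := by exact_mod_cast hn0
  refine ⟨n, T, z, hn0, fun s hs => (hz s (hT1 hs)).2.2, hT3, ?_⟩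
  refine hn n le_rfl T z (fun s hs => (hz s (hT1 hs)).1) ?_ ?_
  · have h1 : 0 ≤ ∑ j, |Cj j| := Finset.sum_nonneg fun _ _ => abs_nonneg _
    have h2 : C₁ * n = (2 * δ + 1) * n + (∑ j, |Cj j|) * n := by rw [hC₁]; ring
    rw [h2]
    nlinarith
  · intro s hs j ε hε
    have h1 := hCj j n T (x s j) ε hn0 hT1 hT2 hε
    have h2 : ((T.filter fun s' => ‖z s' j - z s j‖ ≤ ε).card : ℝ) ≤
        ((T.filter fun s' => |x s' j - x s j| ≤ ε).card : ℝ) := by
      have h3 : (T.filter fun s' => ‖z s' j - z s j‖ ≤ ε) ⊆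
          (T.filter fun s' => |x s' j - x s j| ≤ ε) := by
        intro s' hs'
        rw [Finset.mem_filter] at hs' ⊢
        refine ⟨hs'.1, le_trans ?_ hs'.2⟩
        rw [← (hz s' (hT1 hs'.1)).2.1 j, ← (hz s (hT1 hs)).2.1 j, ← Complex.sub_re]
        exact Complex.abs_re_le_norm _
      exact_mod_cast Finset.card_le_card h3
    refine h2.trans (h1.trans ?_)
    have h4 : 0 ≤ ε * n + 1 := by positivity
    exact mul_le_mul_of_nonneg_right (hC₁j j) h4

end Pool.Agent.J6H91.TZ
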