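import Pool.Agent.J6H91.TZ.Main
import Pool.Agent.J6H91.TZ.Thn
import Pool.Agent.J6H91.TZ.Lin

/-!
# Complete classification for `1 - 1/d < t ≤ 1`: sufficiency
-/

set_option autoImplicit false

namespace Pool.Agent.J6H91.TZ

open MvPolynomial Filter Topology Pool.Agent.J6H91.Cyc

variable {σ : Type} [Fintype σ] [DecidableEq σ]

theorem approxOne_X_sub_C {t : ℝ} (ht : t ≤ 1) (j : σ) {c : ℂ} (hc : ‖c‖ = 1) :
    ApproxOne t (X j - C c : MvPolynomial σ ℂ) := by
  refine approxOne_of_vars ?_ ?_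
  · have h1 : (X j - C c : MvPolynomial σ ℂ).vars ⊆ {j} := by
      intro i hi
      have h2 := MvPolynomial.vars_sub_subset (X j : MvPolynomial σ ℂ) hi
      rw [MvPolynomial.vars_X, MvPolynomial.vars_C, Finset.union_empty] at h2
      exact h2
    have h2 : ((X j - C c : MvPolynomial σ ℂ).vars.card : ℝ) ≤ 1 := by
      exact_mod_cast (Finset.card_le_card h1).trans (Finset.card_singleton j).le
    have h3 : (0 : ℝ) ≤ ((X j - C c : MvPolynomial σ ℂ).vars.card : ℝ) := Nat.cast_nonneg _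
    nlinarith
  · intro z hz h0
    rw [map_sub, eval_X, eval_C, sub_eq_zero] at h0
    have := hz j
    rw [h0, hc] at this
    exact lt_irrefl _ this

/-- **Sufficiency.** -/
theorem approxOne_of_thin {t : ℝ} (ht : t ≤ 1) {P : MvPolynomial σ ℂ} (hP : ZeroFree P)
    (h : Thin (torusZeros P)) : ApproxOne t P := by
  classical
  obtain ⟨F, hF1, hF2⟩ := h
  set G : σ → Finset ℂ := fun j => (hF1 j).toFinset.filter fun c => ‖c‖ = 1 with hG
  have hprod : ∀ (j : σ) (s : Finset ℂ), (∀ c ∈ s, ‖c‖ = 1) →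
      ApproxOne t (∏ c ∈ s, (X j - C c : MvPolynomial σ ℂ)) := by
    intro j s
    induction s using Finset.induction_on with
    | empty =>
      intro _
      rw [Finset.prod_empty]
      have := approxOne_C (σ := σ) (t := t) (a := 1) one_ne_zero
      rwa [C_1] at this
    | insert c s hc ih =>
      intro hs
      rw [Finset.prod_insert hc]
      exact (approxOne_X_sub_C ht j (hs c (Finset.mem_insert_self c s))).mul
        (ih fun c' hc' => hs c' (Finset.mem_insert_of_mem hc'))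
  have hprod2 : ∀ s : Finset σ, ApproxOne t (∏ j ∈ s, ∏ c ∈ G j, (X j - C c : MvPolynomial σ ℂ)) := by
    intro s
    induction s using Finset.induction_on with
    | empty =>
      rw [Finset.prod_empty]
      have := approxOne_C (σ := σ) (t := t) (a := 1) one_ne_zero
      rwa [C_1] at this
    | insert j s hj ih =>
      rw [Finset.prod_insert hj]
      exact (hprod j (G j) fun c hc => (Finset.mem_filter.1 hc).2).mul ih
  refine comparison σ t P _ hP (fun z hz1 h0 => ?_) (hprod2 Finset.univ)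
  obtain ⟨j, hj⟩ := hF2 z ⟨hz1, h0⟩
  rw [map_prod]
  refine Finset.prod_eq_zero (Finset.mem_univ j) ?_
  rw [map_prod]
  refine Finset.prod_eq_zero (i := z j) ?_ ?_
  · rw [hG, Finset.mem_filter, Set.Finite.mem_toFinset]
    exact ⟨hj, hz1 j⟩
  · rw [map_sub, eval_X, eval_C, sub_self]

/-- **Complete classification for `1 - 1/d < t ≤ 1`** -/
theorem shiftCyclic_iff_thin (hINT : S_INT) (hPRJ : S_PRJ) (hREA : S_REA) (hBAS : S_BAS)
    (hMIN : S_MIN) (hCNT : S_CNT) (hSEP : S_SEP) (hKER : S_KER) (hENE : S_ENE)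
    {t : ℝ} (ht : 1 - 1 / (Fintype.card σ : ℝ) < t) (ht1 : t ≤ 1) (P : MvPolynomial σ ℂ) :
    ShiftCyclic t P ↔ ZeroFree P ∧ ∃ F : σ → Set ℂ, (∀ j, (F j).Finite) ∧
      ∀ z : σ → ℂ, (∀ j, ‖z j‖ = 1) → eval z P = 0 → ∃ j, z j ∈ F j := by
  rw [shiftCyclic_iff]
  constructor
  · intro h
    refine ⟨zeroFree_of_approxOne h, ?_⟩
    obtain ⟨F, hF1, hF2⟩ := thin_of_approxOne hINT hPRJ hREA hBAS s_lin hMIN hCNT hSEP hKER hENE ht h
    exact ⟨F, hF1, fun z hz1 h0 => hF2 z ⟨hz1, h0⟩⟩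
  · rintro ⟨hP, F, hF1, hF2⟩
    exact approxOne_of_thin ht1 hP ⟨F, hF1, fun z hz => hF2 z hz.1 hz.2⟩

end Pool.Agent.J6H91.TZ
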