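import Pool.Agent.J6H91.TZ.Sharp
import Pool.Agent.J6H62.TZ.Int
import Pool.Agent.J6H24.TZ.Ker
import Pool.Agent.J6H98.TZ.Bas
import Pool.Agent.J6H94.TZ.Min
import Pool.Agent.J6H49.TZ.CNT
import Pool.Agent.J6H31.TZ.Sep
import Pool.Agent.J6H61.TZ.Prj
import Pool.Agent.J6H48.TZ.REA
import Pool.Agent.J6H9.TZ.Ene

/-!
# The classification for `1 - 1/d < t ≤ 1`
-/

set_option autoImplicit false

namespace Pool.Agent.J6H91.TZ

open MvPolynomial Pool.Agent.J6H91.Cyc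

theorem classification {σ : Type} [Fintype σ] [DecidableEq σ] {t : ℝ}
    (ht : 1 - 1 / (Fintype.card σ : ℝ) < t) (ht1 : t ≤ 1) (P : MvPolynomial σ ℂ) :
    ShiftCyclic t P ↔ ZeroFree P ∧ Crit P :=
  shiftCyclic_iff_thin Pool.Agent.J6H62.TZ.int Pool.Agent.J6H61.TZ.prj
    Pool.Agent.J6H48.TZ.REA.main Pool.Agent.J6H98.TZ.bas Pool.Agent.J6H94.TZMin.s_min
    Pool.Agent.J6H49.TZ.cnt Pool.Agent.J6H31.TZ.main_SEP Pool.Agent.J6H24.TZ.ker
    Pool.Agent.J6H9.TZE.ene ht ht1 P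

theorem main_range (d : ℕ) (hd : 2 ≤ d) (t : ℝ) :
    (1 - 1 / (d : ℝ) < t ∧ t ≤ 1) ↔
      ∀ P : MvPolynomial (Fin d) ℂ, ShiftCyclic t P ↔ ZeroFree P ∧ Crit P := by
  constructor
  · rintro ⟨h1, h2⟩ P
    exact classification (by rwa [Fintype.card_fin]) h2 P
  · intro h
    obtain ⟨m, rfl⟩ : ∃ m, d = m + 1 := ⟨d - 1, by omega⟩
    have := range_of_crit (m := m) (by omega) h
    push_cast
    exact this

end Pool.Agent.J6H91.TZ
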