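import Pool.Agent.J6H91.TZ.Cmp
import Pool.Agent.J6H91.TZ.Cls
import Pool.Agent.J6H20.TZ.Loj
import Pool.Agent.J6H97.TZ.Ev
import Pool.Agent.J6H27.TZ.LT
import Pool.Agent.J6H31.TZ.Dom
import Pool.Agent.J6H10.TZ.CosS

/-!
# The comparison theorem and the classification for unions of cosets
-/

set_option autoImplicit false

namespace Pool.Agent.J6H91.TZ

open MvPolynomial Pool.Agent.J6H91.Cyc

/-- the comparison theorem -/
theorem comparison : S_CMP :=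
  s_cmp Pool.Agent.J6H20.TZ.loj Pool.Agent.J6H27.TZ.LT.main Pool.Agent.J6H97.TZEv.ev

variable {σ : Type} [Fintype σ] [DecidableEq σ]

theorem comparison' {t : ℝ} {P Q : MvPolynomial σ ℂ} (hP : ZeroFree P)
    (h : ∀ z : σ → ℂ, (∀ j, ‖z j‖ = 1) → eval z P = 0 → eval z Q = 0) (hQ : ShiftCyclic t Q) :
    ShiftCyclic t P :=
  shiftCyclic_iff.2 (comparison σ t P Q hP h (shiftCyclic_iff.1 hQ))

theorem cosets_necessary {t : ℝ} {P : MvPolynomial σ ℂ} (h : ShiftCyclic t P) :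
    ZeroFree P ∧ ∀ (L : AddSubgroup (σ → ℤ)) (a : σ → ℂ), (∀ j, ‖a j‖ = 1) →
      (∀ z ∈ coset L a, eval z P = 0) → Rk t L :=
  ⟨zeroFree_of_approxOne (shiftCyclic_iff.1 h), fun L a ha hz =>
    rk_of_approxOne Pool.Agent.J6H10.TZ.s_cos (shiftCyclic_iff.1 h) L a ha hz⟩

theorem cosets_sufficient {t : ℝ} {P : MvPolynomial σ ℂ} (hP : ZeroFree P) {ι : Type} [Finite ι]
    (L : ι → AddSubgroup (σ → ℤ)) (a : ι → σ → ℂ) (ha : ∀ i j, ‖a i j‖ = 1) (hL : ∀ i, Rk t (L i))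
    (hz : ∀ z : σ → ℂ, (∀ j, ‖z j‖ = 1) → eval z P = 0 → ∃ i, z ∈ coset (L i) (a i)) :
    ShiftCyclic t P :=
  shiftCyclic_iff.2 (approxOne_of_cosets comparison Pool.Agent.J6H31.TZ.main_DOM hP L a ha hL hz)

end Pool.Agent.J6H91.TZ
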