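import Pool.Agent.J6H91.TZ.Dir

/-!
# The range `1 - 1/d < t ≤ 1` is sharp
-/

set_option autoImplicit false

namespace Pool.Agent.J6H91.TZ

open MvPolynomial Filter Topology Pool.Agent.J6H91.Cyc

/-- the criterion: the zeros on the torus lie in finitely many sets `{z_j = c}` -/
def Crit {σ : Type} [Fintype σ] (P : MvPolynomial σ ℂ) : Prop :=
  ∃ F : σ → Set ℂ, (∀ j, (F j).Finite) ∧
    ∀ z : σ → ℂ, (∀ j, ‖z j‖ = 1) → eval z P = 0 → ∃ j, z j ∈ F j

theorem infinite_circle : {w : ℂ | ‖w‖ = 1}.Infinite := by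
  refine Set.infinite_of_injOn_mapsTo (s := Set.Icc 0 Real.pi)
    (f := fun θ : ℝ => Complex.exp (θ * Complex.I)) ?_ ?_ (Set.Icc_infinite Real.pi_pos)
  · intro a ha b hb h
    have h1 := congrArg Complex.re h
    simp only [Complex.exp_ofReal_mul_I_re] at h1
    exact Real.injOn_cos ha hb h1
  · intro θ _
    exact Complex.norm_exp_ofReal_mul_I θ

theorem prod_zpow_eq {ι : Type} (s : Finset ι) {w : ℂ} (hw : w ≠ 0) (f : ι → ℤ) :
    ∏ i ∈ s, w ^ f i = w ^ ∑ i ∈ s, f i := by
  classical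
  induction s using Finset.induction_on with
  | empty => simp
  | insert i s hi ih => rw [Finset.prod_insert hi, Finset.sum_insert hi, zpow_add₀ hw, ih]

/-- `m - ∑_i z_0 z_i` -/
noncomputable def PP (m : ℕ) : MvPolynomial (Fin (m + 1)) ℂ :=
  C (m : ℂ) - ∑ i : Fin m, X 0 * X i.succ

theorem eval_PP (m : ℕ) (z : Fin (m + 1) → ℂ) : eval z (PP m) = m - ∑ i : Fin m, z 0 * z i.succ := by
  unfold PP
  rw [map_sub, map_sum, eval_C]
  congr 1
  refine Finset.sum_congr rfl fun i _ => ?_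
  rw [map_mul, eval_X, eval_X]

theorem zeroFree_PP {m : ℕ} (hm : 1 ≤ m) : ZeroFree (PP m) := by
  intro z hz h0
  rw [eval_PP, sub_eq_zero] at h0
  have h1 : ‖∑ i : Fin m, z 0 * z i.succ‖ < m := by
    refine lt_of_le_of_lt (norm_sum_le _ _) ?_
    have h2 : ∑ i : Fin m, ‖z 0 * z i.succ‖ < ∑ _i : Fin m, (1 : ℝ) := by
      refine Finset.sum_lt_sum_of_nonempty ⟨⟨0, hm⟩, Finset.mem_univ _⟩ fun i _ => ?_
      rw [norm_mul]
      have h3 := hz 0
      have h4 := hz i.succ
      have h5 := norm_nonneg (z 0)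
      have h6 := norm_nonneg (z i.succ)
      nlinarith
    simpa using h2
  rw [← h0] at h1
  simp at h1

/-- the lattice -/
def LL (m : ℕ) : AddSubgroup (Fin (m + 1) → ℤ) where
  carrier := {l | l 0 = ∑ i : Fin m, l i.succ}
  zero_mem' := by simp
  add_mem' := by
    intro a b ha hb
    change (a + b) 0 = ∑ i : Fin m, (a + b) i.succ
    have ha' : a 0 = ∑ i : Fin m, a i.succ := ha
    have hb' : b 0 = ∑ i : Fin m, b i.succ := hb
    simp only [Pi.add_apply, Finset.sum_add_distrib, ha', hb']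
  neg_mem' := by
    intro a ha
    change (-a) 0 = ∑ i : Fin m, (-a) i.succ
    have ha' : a 0 = ∑ i : Fin m, a i.succ := ha
    simp only [Pi.neg_apply, Finset.sum_neg_distrib, ha']

theorem torus_PP {m : ℕ} {z : Fin (m + 1) → ℂ} (hz : ∀ j, ‖z j‖ = 1) (h0 : eval z (PP m) = 0)
    (i : Fin m) : z 0 * z i.succ = 1 := by
  rw [eval_PP, sub_eq_zero] at h0
  have hn : ∀ i : Fin m, ‖z 0 * z i.succ‖ = 1 := fun i => by rw [norm_mul, hz, hz, mul_one]
  have h1 : ∑ i : Fin m, (z 0 * z i.succ).re = ∑ _i : Fin m, (1 : ℝ) := by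
    have h2 := congrArg Complex.re h0
    rw [Complex.re_sum] at h2
    rw [← h2]
    simp
  have h3 := (Finset.sum_eq_sum_iff_of_le fun i _ =>
    (Complex.re_le_norm (z 0 * z i.succ)).trans (hn i).le).1 h1 i (Finset.mem_univ i)
  have h4 : ‖z 0 * z i.succ‖ ^ 2 = 1 := by rw [hn, one_pow]
  rw [← Complex.normSq_eq_norm_sq, Complex.normSq_apply, h3] at h4
  have h5 : (z 0 * z i.succ).im = 0 := by nlinarith
  exact Complex.ext (by rw [h3]; rfl) (by rw [h5]; rfl)

theorem rk_LL {m : ℕ} {t : ℝ} (ht : t ≤ 1 - 1 / ((m : ℝ) + 1)) : Rk t (LL m) := by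
  classical
  refine ⟨Finset.univ, Finset.univ_nonempty, ?_⟩
  have h1 : Fintype.card (Fin m) ≤
      rankIn {k : Fin (m + 1) →₀ ℕ | Pool.Agent.J6H91.Cyc.toZ k ∈ LL m} Finset.univ := by
    refine card_le_rankIn (v := fun i : Fin m => Finsupp.single 0 1 + Finsupp.single i.succ 1)
      ?_ fun i => ⟨?_, Finset.subset_univ _⟩
    · rw [Fintype.linearIndependent_iff]
      intro g hg i
      have h2 := congrFun hg i.succ
      simp only [Finset.sum_apply, Pi.smul_apply, smul_eq_mul, Pi.zero_apply] at h2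
      have h3 : ∀ x : Fin m, g x * toQ (Finsupp.single 0 1 + Finsupp.single x.succ 1 :
          Fin (m + 1) →₀ ℕ) i.succ = if x = i then g i else 0 := by
        intro x
        have h4 : toQ (Finsupp.single 0 1 + Finsupp.single x.succ 1 : Fin (m + 1) →₀ ℕ) i.succ =
            (((Finsupp.single 0 1 + Finsupp.single x.succ 1 : Fin (m + 1) →₀ ℕ) i.succ : ℕ) : ℚ) :=
          rfl
        rw [h4, Finsupp.add_apply, Finsupp.single_apply, Finsupp.single_apply]
        have h5 : (0 : Fin (m + 1)) ≠ i.succ := (Fin.succ_ne_zero i).symm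
        rw [if_neg h5]
        by_cases h6 : x = i
        · subst h6
          simp
        · have h7 : x.succ ≠ i.succ := fun h => h6 (Fin.succ_injective m h)
          rw [if_neg h7, if_neg h6]
          simp
      simp only [h3, Finset.sum_ite_eq', Finset.mem_univ, if_true] at h2
      exact h2
    · change Pool.Agent.J6H91.Cyc.toZ _ 0 = ∑ x : Fin m, Pool.Agent.J6H91.Cyc.toZ _ x.succ
      have h5 : ∀ x : Fin m, Pool.Agent.J6H91.Cyc.toZ (Finsupp.single 0 1 +
          Finsupp.single i.succ 1 : Fin (m + 1) →₀ ℕ) x.succ = if x = i then 1 else 0 := by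
        intro x
        change (((Finsupp.single 0 1 + Finsupp.single i.succ 1 : Fin (m + 1) →₀ ℕ) x.succ : ℕ) :
          ℤ) = _
        rw [Finsupp.add_apply, Finsupp.single_apply, Finsupp.single_apply,
          if_neg (Fin.succ_ne_zero x).symm]
        by_cases h6 : x = i
        · subst h6
          simp
        · have h7 : i.succ ≠ x.succ := fun h => h6 (Fin.succ_injective m h).symm
          rw [if_neg h7, if_neg h6]
          simp
      simp only [h5, Finset.sum_ite_eq', Finset.mem_univ, if_true]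
      change (((Finsupp.single 0 1 + Finsupp.single i.succ 1 : Fin (m + 1) →₀ ℕ) 0 : ℕ) : ℤ) = 1
      rw [Finsupp.add_apply, Finsupp.single_apply, Finsupp.single_apply, if_pos rfl,
        if_neg (Fin.succ_ne_zero i)]
      rfl
  rw [Fintype.card_fin] at h1
  have h2 : t * ((m : ℝ) + 1) ≤ m := by
    calc t * ((m : ℝ) + 1) ≤ (1 - 1 / ((m : ℝ) + 1)) * ((m : ℝ) + 1) :=
          mul_le_mul_of_nonneg_right ht (by positivity)
      _ = m := by field_simp; ring
  rw [Finset.card_univ, Fintype.card_fin]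
  push_cast
  exact h2.trans (by exact_mod_cast h1)

theorem shiftCyclic_PP {m : ℕ} (hm : 1 ≤ m) {t : ℝ} (ht : t ≤ 1 - 1 / ((m : ℝ) + 1)) :
    ShiftCyclic t (PP m) := by
  refine cosets_sufficient (zeroFree_PP hm) (ι := Unit) (fun _ => LL m) (fun _ _ => 1) (by simp)
    (fun _ => rk_LL ht) fun z hz h0 => ⟨(), hz, fun l hl => ?_⟩
  have hz0 : z 0 ≠ 0 := by
    intro h
    have := hz 0
    rw [h, norm_zero] at this
    exact zero_ne_one this
  have h1 : ∀ i : Fin m, z i.succ = (z 0)⁻¹ := fun i =>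
    eq_inv_of_mul_eq_one_right (torus_PP hz h0 i)
  have hl' : l 0 = ∑ i : Fin m, l i.succ := hl
  rw [Fin.prod_univ_succ]
  simp only [div_one, h1, inv_zpow']
  rw [prod_zpow_eq _ hz0, Finset.sum_neg_distrib, ← hl', ← zpow_add₀ hz0, add_neg_cancel, zpow_zero]

theorem not_crit_PP (m : ℕ) : ¬ Crit (PP m) := by
  rintro ⟨F, hF1, hF2⟩
  refine infinite_circle ?_
  have hfin : (F 0 ∪ ⋃ i : Fin m, (fun w : ℂ => w⁻¹) '' F i.succ).Finite :=
    (hF1 0).union (Set.finite_iUnion fun i => (hF1 i.succ).image _)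
  refine hfin.subset fun w hw => ?_
  have hw' : ‖w‖ = 1 := hw
  have hw0 : w ≠ 0 := by
    intro h
    rw [h, norm_zero] at hw'
    exact zero_ne_one hw'
  obtain ⟨j, hj⟩ := hF2 (Fin.cons w fun _ => w⁻¹) (fun j => by
    refine Fin.cases ?_ (fun i => ?_) j
    · simpa using hw'
    · simp [norm_inv, hw']) (by
    rw [eval_PP]
    simp [hw0])
  revert hj
  refine Fin.cases (fun h => ?_) (fun i h => ?_) j
  · left
    simpa using h
  · right
    refine Set.mem_iUnion.2 ⟨i, w⁻¹, ?_, inv_inv w⟩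
    simpa using h

theorem crit_oneSub (m : ℕ) : Crit (oneSub ({0} : Finset (Fin (m + 1)))) := by
  refine ⟨fun _ => {1}, fun _ => Set.finite_singleton _, fun z _ h0 => ⟨0, ?_⟩⟩
  unfold oneSub at h0
  rw [map_sub, map_one, MvPolynomial.eval_monomial, one_mul, sub_eq_zero] at h0
  have h1 : indJ ({0} : Finset (Fin (m + 1))) = Finsupp.single 0 1 := by
    unfold indJ
    rw [Finset.sum_singleton]
  rw [h1, Finsupp.prod_single_index (by simp), pow_one] at h0
  exact h0.symm

/-- if the criterion describes the shift-cyclic polynomials in `D_t(𝔻^d)`, `d ≥ 2`, then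
`1 - 1/d < t ≤ 1` -/
theorem range_of_crit {m : ℕ} (hm : 1 ≤ m) {t : ℝ}
    (h : ∀ P : MvPolynomial (Fin (m + 1)) ℂ, ShiftCyclic t P ↔ ZeroFree P ∧ Crit P) :
    1 - 1 / ((m : ℝ) + 1) < t ∧ t ≤ 1 := by
  constructor
  · by_contra hcon
    push Not at hcon
    exact not_crit_PP m ((h (PP m)).1 (shiftCyclic_PP hm hcon)).2
  · by_contra hcon
    push Not at hcon
    have h1 := (h (oneSub {0})).2 ⟨zeroFree_oneSub (Finset.singleton_nonempty _), crit_oneSub m⟩
    refine not_approxOne_oneSub (t := t) (Finset.singleton_nonempty (0 : Fin (m + 1))) ?_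
      (shiftCyclic_iff.1 h1)
    rw [Finset.card_singleton, Nat.cast_one, mul_one]
    exact hcon

end Pool.Agent.J6H91.TZ
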