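import Pool.Agent.J6H91.TZ.Stm

/-!
# Project TZ2 (helper91): complete classification of the shift-cyclic polynomials for `1 - 1/d < t ≤ 1`

Goal: `P` is shift-cyclic in `D_t(𝔻^d)`, `1 - 1/d < t ≤ 1` (e.g. the Dirichlet space), iff `P` has no zero in
`𝔻^d` and the zeros on the torus are in finitely many sets `{z_j = c}`. The modules below give the
necessity. Put your file in your own folder under `Pool/Agent/`.
-/

set_option autoImplicit false

namespace Pool.Agent.J6H91.TZ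

open MvPolynomial Filter Topology Pool.Agent.J6H91.Cyc Pool.Agent.Helper334_SA

/-- `E` is covered by finitely many sets `{x_j = c}` -/
def Thin {ι α : Type} (E : Set (ι → α)) : Prop :=
  ∃ F : ι → Set α, (∀ j, (F j).Finite) ∧ ∀ x ∈ E, ∃ j, x j ∈ F j

/-- **TZ-INT**. A semialgebraic set without interior is contained in a hypersurface. Proof: let `Q` be the
finite set of polynomials of `SA S`, `h = ∏_{q ∈ Q, q ≠ 0} q`. If `x ∈ S` and `h x ≠ 0`, then the signs of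
all `q ∈ Q` are constant near `x` (continuity), so `x` is an interior point of `S`. -/
def S_INT : Prop :=
  ∀ (ι : Type) [Finite ι] (S : Set (ι → ℝ)), SA S → interior S = ∅ →
    ∃ h : MvPolynomial ι ℝ, h ≠ 0 ∧ ∀ x ∈ S, eval x h = 0

/-- **TZ-PRJ**. Images of semialgebraic sets under `x ↦ (x (e k))_k` are semialgebraic
(`SAP.exists_real`, iterated; see also `Pool/Agent/J6H20/TZ/Loj.lean`, where a quantifier over `ι → ℝ` is
eliminated: `{y | ∃ x ∈ S, x ∘ e = y}` in the variables `κ ⊕ ι`). -/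
def S_PRJ : Prop :=
  ∀ (ι κ : Type) [Finite ι] [Finite κ] (e : κ → ι) (S : Set (ι → ℝ)), SA S →
    SA ((fun x : ι → ℝ => x ∘ e) '' S)

/-- **TZ-REA**. The real parts of the zeros on the torus form a semialgebraic set. Proof: the set of
`(x, y) ∈ ℝ^(σ ⊕ σ)` with `x_j² + y_j² = 1`, `P(x + i y) = 0` is semialgebraic (`Pool/Agent/J6H27/TZ/LT.lean`:
`pf_re_im`, `pf_normSq`); project to the `x_j` by `S_PRJ`. -/
def S_REA : Prop := S_PRJ →
  ∀ (σ : Type) [Fintype σ] [DecidableEq σ] (P : MvPolynomial σ ℂ),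
    SA {x : σ → ℝ | ∃ z : σ → ℂ, (∀ j, ‖z j‖ = 1) ∧ (∀ j, (z j).re = x j) ∧ eval z P = 0}

/-- the value at `w` of the polynomial `h` in the variables `u` (index set `B`) and `w` (`none`) -/
noncomputable def ev2 {β : Type} (h : MvPolynomial (Option β) ℝ) (u : β → ℝ) (w : ℝ) : ℝ :=
  eval (fun o => Option.elim o w u) h

/-- **TZ-BAS**, a basis of coordinates. Call `L` small if it is a finite union of sets `{x_j = c}` (so `E` is
thin iff it is contained in a small set; small sets are closed under finite unions). Choose `B ⊆ ι` of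
maximal cardinality such that for every small `L` the projection `π_B (E \ L)` to `ℝ^B` has nonempty
interior (`B = ∅` has this property since `E` is not thin: `ℝ^∅` is a point). For `j ∉ B` the set
`B ∪ {j}` does not have the property: for some small `L_j` the projection of `E \ L_j` to the
coordinates `B ∪ {j}` (index set `Option B` via `none ↦ j`) has no interior, so by `S_INT` (and
`S_PRJ`; `E \ L_j` is semialgebraic) it is contained in `{h_j = 0}` with `h_j(u, w) ≠ 0`. There are only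
finitely many `w` with `h_j(·, w) = 0` identically (write `h_j = ∑_α c_α(w) u^α`, some `c_α ≠ 0`): let
`L = ⋃_j (L_j ∪ {x_j ∈ W_j})`, `E₁ = E \ L` and `O` the interior of `π_B (E₁)`. -/
def S_BAS : Prop := S_INT → S_PRJ →
  ∀ (ι : Type) [Fintype ι] [DecidableEq ι] (E : Set (ι → ℝ)), SA E → ¬ Thin E →
    ∃ (B : Finset ι) (E₁ : Set (ι → ℝ)) (O : Set ({b // b ∈ B} → ℝ))
      (h : ι → MvPolynomial (Option {b // b ∈ B}) ℝ),
      E₁ ⊆ E ∧ IsOpen O ∧ O.Nonempty ∧ (∀ u ∈ O, ∃ x ∈ E₁, ∀ b : {b // b ∈ B}, x b = u b) ∧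
      ∀ x ∈ E₁, ∀ j, j ∉ B → ev2 (h j) (fun b => x b) (x j) = 0 ∧
        ∃ u : {b // b ∈ B} → ℝ, ev2 (h j) u (x j) ≠ 0

/-- the value at `(s, w)` of the polynomial `k` in `s` whose coefficients are polynomials in `w` -/
noncomputable def kev (k : Polynomial (Polynomial ℝ)) (s w : ℝ) : ℝ :=
  (k.map (Polynomial.evalRingHom w)).eval s

/-- **TZ-LIN**, restriction to a line. Proof: `B, E₁, O, h` from `S_BAS`. If `j ∉ B`, then `h j ≠ 0` (if
`E₁` is nonempty, which it is). Choose `p ∈ O` such that `h_j(p, ·)` is not identically zero for all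
`j ∉ B` (an open set is not contained in the zero set of a nonzero polynomial; some coefficient of
`h_j` with respect to `w` is a nonzero polynomial in `u`). The set `R_j` of the real zeros `w` of
`h_j(p, ·)` is finite. Choose `y ∈ ℝ^B` with `y_b ≠ p_b` and `h_j(y, w) ≠ 0` for all `j ∉ B`, `w ∈ R_j`
with `h_j(·, w) ≠ 0` (finitely many nonzero polynomials in `y`), `v = y - p`. For `|s| < δ` the point
`p + s v` is in `O`; choose `x(s) ∈ E₁` above it. Take `k_b = w - p_b - s v_b` for `b ∈ B` and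
`k_j(s, w) = h_j(p + s v, w)` for `j ∉ B`. The polynomial `k_j(·, w)`, `w = x_j(s)`, is not zero: if
`h_j(p, w) ≠ 0` look at `s = 0`, if `h_j(p, w) = 0` look at `s = 1`. -/
def S_LIN : Prop := S_BAS → S_INT → S_PRJ →
  ∀ (ι : Type) [Fintype ι] [DecidableEq ι] (E : Set (ι → ℝ)), SA E → ¬ Thin E →
    ∃ (δ : ℝ) (x : ℝ → ι → ℝ) (k : ι → Polynomial (Polynomial ℝ)), 0 < δ ∧
      ∀ s ∈ Set.Ioo (-δ) δ, x s ∈ E ∧ ∀ j, kev (k j) s (x s j) = 0 ∧
        (k j).map (Polynomial.evalRingHom (x s j)) ≠ 0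

/-- **TZ-MIN**. Here `volume` is the outer measure, `x` is arbitrary. Proof: treat the finitely many `j` one
after the other (induction over a `Finset`; the properties are inherited by subsets `A`). Given `A` with
positive outer measure and `j`, consider the pairs `(A', q)`, `A' ⊆ A`, `0 < volume A'`, `q ≠ 0`,
`kev q s (x s j) = 0` on `A'`; `(A, k j)` is one (`k j ≠ 0` as `A` is nonempty). Choose one with
`q.natDegree` (the degree in `s`) minimal. If `q.natDegree = 0`, `q = C a`, `a ≠ 0`, so `x s j` is a root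
of `a` for `s ∈ A'`; some root `w` is taken on a subset of positive outer measure, hence for infinitely
many `s`, which are all roots of `(k j).map (evalRingHom w) ≠ 0`: contradiction. So
`q' = derivative q ≠ 0` has smaller degree, and `{s ∈ A' | kev q' s (x s j) = 0}` is a null set. So the
union over `n` of `{s ∈ A' | |x s j| ≤ n, |kev q' s (x s j)| ≥ 1/n}` has positive outer measure, and
one of these sets has. -/
def S_MIN : Prop :=
  ∀ (ι : Type) [Fintype ι] [DecidableEq ι] (δ : ℝ) (x : ℝ → ι → ℝ)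
    (k : ι → Polynomial (Polynomial ℝ)), 0 < δ →
    (∀ s ∈ Set.Ioo (-δ) δ, ∀ j, kev (k j) s (x s j) = 0 ∧
      (k j).map (Polynomial.evalRingHom (x s j)) ≠ 0) →
    ∃ (A : Set ℝ) (q : ι → Polynomial (Polynomial ℝ)) (c M : ℝ), A ⊆ Set.Ioo (-δ) δ ∧
      0 < MeasureTheory.volume A ∧ 0 < c ∧ ∀ s ∈ A, ∀ j, |x s j| ≤ M ∧ kev (q j) s (x s j) = 0 ∧
        c ≤ |kev (Polynomial.derivative (q j)) s (x s j)|

/-- **TZ-CNT**, counting. Proof: on the compact set `|s| ≤ δ`, `|w| ≤ M + 1` the function `kev k` and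
`kev (derivative k)` are Lipschitz in `w` with some constant `C₁` (polynomials in two variables). Let
`0 ≤ ε ≤ ε₀ = min 1 (c / (2 C₁))`, `|w| ≤ M + 1` (otherwise no `s`). For the `s` to be counted,
`g(s) = kev k s w` satisfies `|g(s)| ≤ C₁ ε`, `|g'(s)| ≥ c / 2`. Order them: `s_1 < s_2 < ...`. If
`|g'| ≥ c / 4` on `[s_i, s_{i+1}]`, then `s_{i+1} - s_i ≤ 8 C₁ ε / c`; moreover a run of consecutive such
intervals has total length `≤ 8 C₁ ε / c` (`g'` has constant sign on it), so it contains at most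
`8 C₁ ε n / c + 1` of the points. Otherwise `(g')² - (c/3)²`, a nonzero polynomial (its value at `s_i` is
positive) of degree `≤ 2 deg_s k`, has a root in `(s_i, s_{i+1})`: at most `2 deg_s k` such `i`. For
`ε > ε₀` use `card T ≤ 2 δ n + 1`. -/
def S_CNT : Prop :=
  ∀ (δ c M : ℝ) (k : Polynomial (Polynomial ℝ)) (A : Set ℝ) (x : ℝ → ℝ), 0 < δ → 0 < c →
    A ⊆ Set.Ioo (-δ) δ → (∀ s ∈ A, |x s| ≤ M ∧ kev k s (x s) = 0 ∧
      c ≤ |kev (Polynomial.derivative k) s (x s)|) →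
    ∃ C : ℝ, ∀ (n : ℕ) (T : Finset ℝ) (w ε : ℝ), 0 < n → (T : Set ℝ) ⊆ A →
      (∀ s ∈ T, ∀ s' ∈ T, s ≠ s' → 1 / (n : ℝ) ≤ |s - s'|) → 0 ≤ ε →
      ((T.filter fun s => |x s - w| ≤ ε).card : ℝ) ≤ C * (ε * n + 1)

/-- **TZ-SEP**, a separated subset (`A` need not be measurable). Proof: a `1/n`-separated finite subset of
`A` has at most `2 δ n + 1` elements; choose one, `T`, of maximal cardinality. Then `A` is contained in
the union of the intervals of length `2/n` around the points of `T`, so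
`volume A ≤ card T * (2 / n)`. -/
def S_SEP : Prop :=
  ∀ (δ : ℝ) (A : Set ℝ), A ⊆ Set.Ioo (-δ) δ → 0 < MeasureTheory.volume A →
    ∃ c : ℝ, 0 < c ∧ ∀ n : ℕ, 0 < n → ∃ T : Finset ℝ, (T : Set ℝ) ⊆ A ∧
      (∀ s ∈ T, ∀ s' ∈ T, s ≠ s' → 1 / (n : ℝ) ≤ |s - s'|) ∧ c * n ≤ T.card ∧
      (T.card : ℝ) ≤ 2 * δ * n + 1

/-- **TZ-KER**, the kernel. Proof: let `r = ‖1 - ζ‖ ∈ (0, 2]`. The sum over the `k < 2 / r` is at most
`∑_{k < 2/r} (k + 1)^(-t) ≤ C (2/r)^(1-t)`. For the others: partial summation, `(k + 1)^(-t)` is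
decreasing, and `‖∑_{a ≤ k < b} ζ^k‖ ≤ 2 / r`: the rest is at most `(2/r) * (2/r)^(-t)`. -/
def S_KER : Prop :=
  ∀ t : ℝ, 0 < t → t < 1 → ∃ C : ℝ, ∀ (K : ℕ) (ζ : ℂ), ‖ζ‖ = 1 → ζ ≠ 1 →
    ‖∑ k ∈ Finset.range K, ((((k : ℝ) + 1) ^ (-t) : ℝ) : ℂ) * ζ ^ k‖ ≤ C * ‖1 - ζ‖ ^ (t - 1)

/-- **TZ-ENE**, the energy. Proof: it suffices to bound the sum over the box `k_j < K` (`S` is contained in
it, the terms are nonnegative). It is, with `G(ζ) = ∑_{k < K} (k + 1)^(-t) ζ^k`,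
`n⁻² ∑_{s, s' ∈ T} ∏_j G(z_j(s) conj (z_j(s')))`, so at most `n⁻² ∑_{s,s'} ∏_j |G(...)|`, which is by
Hoelder (`Finset.inner_le_nnorm_mul_nnorm`, or `∏ a_j ≤ ∑ a_j^d`, `d = |σ|`) at most
`∑_j n⁻² ∑_{s, s'} |G(z_j(s) conj (z_j(s')))|^d`. Fix `s` and `j` and let `D = ‖z_j(s) - z_j(s')‖ ≤ 2`. The
`s'` with `D ≤ 1/n`: at most `2 C₁`, each contributes at most `K^d`, together `≤ 2 C₁ K^d`. The `s'` with
`2^(i-1)/n < D ≤ 2^i/n`, `1 ≤ i`, `2^(i-1) ≤ 2n`: at most `C₁ (2^i + 1) ≤ 2 C₁ 2^i` of them, each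
contributes `≤ (C₂ (2^(i-1)/n)^(t-1))^d` (`S_KER`; `ζ ≠ 1` as `D > 0`). With `γ = (1 - t) d < 1` the sum
over `i` is `≤ C₃ n^γ ∑_i 2^(i (1 - γ)) ≤ C₄ n^γ n^(1-γ) = C₄ n`. Altogether the energy is at most
`d n⁻² (card T) (2 C₁ K^d + C₄ n) ≤ d C₁ (2 C₁ K^d / n + C₄)`, at most `C` for `n ≥ K^d`. -/
def S_ENE : Prop := S_KER →
  ∀ (σ : Type) [Fintype σ] [DecidableEq σ] (t : ℝ), 0 < t → t < 1 → (1 - t) * Fintype.card σ < 1 →
    ∀ C₁ : ℝ, ∃ C : ℝ, ∀ K : ℕ, ∃ n₀ : ℕ, 0 < n₀ ∧ ∀ n : ℕ, n₀ ≤ n →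
      ∀ (T : Finset ℝ) (z : ℝ → σ → ℂ), (∀ s ∈ T, ∀ j, ‖z s j‖ = 1) → (T.card : ℝ) ≤ C₁ * n →
      (∀ s ∈ T, ∀ j, ∀ ε : ℝ, 0 ≤ ε →
        ((T.filter fun s' => ‖z s' j - z s j‖ ≤ ε).card : ℝ) ≤ C₁ * (ε * n + 1)) →
      ∀ S : Finset (σ →₀ ℕ), (∀ k ∈ S, ∀ j, k j < K) →
        ∑ k ∈ S, (weight t k)⁻¹ * ‖(n : ℂ)⁻¹ * ∑ s ∈ T, ∏ j, z s j ^ k j‖ ^ 2 ≤ C

end Pool.Agent.J6H91.TZ
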