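import Pool.Agent.J6H91.TZ.Stm
import Pool.Agent.J6H91.Cyc.Hilbert

/-!
# The weak convergence criterion with a target polynomial
-/

set_option autoImplicit false

namespace Pool.Agent.J6H91.TZ

open MvPolynomial Filter Topology Pool.Agent.J6H91.Cyc

/-- The weak convergence criterion. -/
theorem approx_of_weak {σ : Type} [Fintype σ] [DecidableEq σ] {t : ℝ} {P f : MvPolynomial σ ℂ} (c : ℕ → (σ →₀ ℕ) → ℂ)
    (hc : ∀ n, MemD t (c n)) (C : ℝ) (hC : ∀ n, normSq t (c n) ≤ C)
    (hlim : ∀ k, Tendsto (fun n => c n k) atTop (𝓝 (f.coeff k)))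
    (happ : ∀ n, ∀ ε : ℝ, 0 < ε → ∃ q : MvPolynomial σ ℂ,
      normSq t (fun k => c n k - (q * P).coeff k) < ε) :
    ∀ ε : ℝ, 0 < ε → ∃ q : MvPolynomial σ ℂ,
      normSq t (fun k => f.coeff k - (q * P).coeff k) < ε := by
  set V : Submodule ℂ (L2 σ) := (LinearMap.range (mulMap t P)).topologicalClosure with hV
  have hVc : IsClosed (V : Set (L2 σ)) := Submodule.isClosed_topologicalClosure _
  have : CompleteSpace V := hVc.completeSpace_coe
  set e : L2 σ := toL2 (memD_coeff t f) with he
  have hmem : ∀ n, toL2 (hc n) ∈ V := by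
    intro n
    rw [hV, ← SetLike.mem_coe, Submodule.topologicalClosure_coe, Metric.mem_closure_iff]
    intro ε hε
    obtain ⟨q, hq⟩ := happ n (ε ^ 2) (by positivity)
    refine ⟨mulMap t P q, ⟨q, rfl⟩, ?_⟩
    rw [dist_eq_norm]
    have h := toL2_sub_norm_sq (hc n) (memD_coeff t (q * P))
    rw [← h] at hq
    exact lt_of_pow_lt_pow_left₀ 2 hε.le hq
  set u : L2 σ := e - V.starProjection e with hu
  have hperp : u ∈ Vᗮ := Submodule.sub_starProjection_mem_orthogonal e
  have h1 : ∀ n, inner ℂ u (toL2 (hc n)) = 0 := fun n =>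
    (Submodule.mem_orthogonal' V u).mp hperp _ (hmem n)
  have h2 : Tendsto (fun n => inner ℂ u (toL2 (hc n) - e)) atTop (𝓝 0) := by
    refine tendsto_inner_zero u (fun n => toL2 (hc n) - e) (Real.sqrt C + ‖e‖) (fun n => ?_) ?_
    · refine (norm_sub_le _ _).trans ?_
      refine add_le_add ?_ le_rfl
      refine Real.le_sqrt_of_sq_le ?_
      rw [norm_toL2_sq]
      exact hC n
    · intro k
      have h3 : ∀ n, (toL2 (hc n) - e : L2 σ) k =
          (Real.sqrt (weight t k) : ℂ) * (c n k - f.coeff k) := by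
        intro n
        change (Real.sqrt (weight t k) : ℂ) * c n k -
          (Real.sqrt (weight t k) : ℂ) * f.coeff k = _
        ring
      simp_rw [h3]
      have h4 := ((hlim k).sub_const (f.coeff k)).const_mul
        (Real.sqrt (weight t k) : ℂ)
      simpa using h4
  have h3 : inner ℂ u e = 0 := by
    have h4 : ∀ n, inner ℂ u (toL2 (hc n) - e) = - inner ℂ u e := by
      intro n
      rw [inner_sub_right, h1 n, zero_sub]
    simp_rw [h4] at h2
    have := tendsto_nhds_unique h2 tendsto_const_nhds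
    rw [← neg_eq_zero, ← this]
  have h4 : inner ℂ u u = 0 := by
    have h5 : inner ℂ u (V.starProjection e) = 0 :=
      (Submodule.mem_orthogonal' V u).mp hperp _ (Submodule.starProjection_apply_mem V e)
    conv_lhs => rw [hu, inner_sub_right]
    rw [← hu, h3, h5, sub_zero]
  have h5 : u = 0 := inner_self_eq_zero.mp h4
  have h6 : e ∈ V := by
    have : e = V.starProjection e := by
      rw [hu, sub_eq_zero] at h5
      exact h5
    rw [this]
    exact Submodule.starProjection_apply_mem V e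
  intro ε hε
  rw [hV, ← SetLike.mem_coe, Submodule.topologicalClosure_coe, Metric.mem_closure_iff] at h6
  obtain ⟨_, ⟨q, rfl⟩, hq⟩ := h6 (Real.sqrt ε) (Real.sqrt_pos.mpr hε)
  refine ⟨q, ?_⟩
  rw [dist_eq_norm] at hq
  have h7 := toL2_sub_norm_sq (memD_coeff t f) (memD_coeff t (q * P))
  have h8 : ‖e - mulMap t P q‖ ^ 2 < Real.sqrt ε ^ 2 := by
    exact pow_lt_pow_left₀ hq (norm_nonneg _) (by norm_num)
  rw [Real.sq_sqrt hε.le] at h8
  rw [← h7]
  exact h8

theorem s_wk : S_WK := fun _ _ _ _ _ _ c hc C hC hlim happ =>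
  approx_of_weak c hc C hC hlim happ

end Pool.Agent.J6H91.TZ
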